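import Pool.Agent.Lib.MP_acafa7_al.MS.Iface2

/-! Module CycM: the degenerate annulus (a cycle). -/

namespace MSG.H16

open Classical

section

variable {V : Type} {a : Equiv.Perm V}

/-- if only the last dart has nonzero shift, the lifted walk is the list of targets -/
lemma wkA_eq {D : Type} (M : LMap V D a) : ∀ (R : List D), (∀ r ∈ R.dropLast, M.h r = 0) →
    M.wkA 0 R = R.map M.t := by
  intro R
  induction R with
  | nil => intro _; rfl
  | cons r l ih =>
    intro h
    rcases l with _ | ⟨r', l⟩
    · simp [LMap.wkA]
    · have h0 : M.h r = 0 := h r (by simp [List.dropLast])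
      have h1 : M.wkA 0 (r' :: l) = (r' :: l).map M.t := by
        apply ih
        intro x hx
        apply h
        rw [List.dropLast_cons_of_ne_nil (by simp)]
        exact List.mem_cons_of_mem _ hx
      show (a ^ (0 : ℤ)) (M.t r) :: M.wkA (0 + M.h r) (r' :: l) = _
      rw [h0, add_zero, h1]
      simp

/-- the rotation of the darts of the cycle -/
def cycφ (m : ℕ) : Equiv.Perm (Fin (m + 1) × Bool) where
  toFun d := if d.2 then ((finRotate (m + 1)).symm d.1, true) else (finRotate (m + 1) d.1, false)
  invFun d := if d.2 then (finRotate (m + 1) d.1, true) else ((finRotate (m + 1)).symm d.1, false)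
  left_inv := by
    rintro ⟨i, b⟩
    cases b <;> simp
  right_inv := by
    rintro ⟨i, b⟩
    cases b <;> simp

/-- the edge involution -/
def cycι (m : ℕ) : Equiv.Perm (Fin (m + 1) × Bool) where
  toFun d := (d.1, !d.2)
  invFun d := (d.1, !d.2)
  left_inv := by
    rintro ⟨i, b⟩
    simp
  right_inv := by
    rintro ⟨i, b⟩
    simp

/-- labels -/
def cycf (m : ℕ) (σ : ℕ → V) : Fin (m + 1) × Bool → V :=
  fun d => if d.2 then σ (d.1.val + 1) else σ d.1.val

/-- shifts -/
def cych (m : ℕ) : Fin (m + 1) × Bool → ℤ :=
  fun d => if d.2 then (if d.1 = 0 then -1 else 0) else (if d.1 = Fin.last m then 1 else 0)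

lemma rot_ne {m : ℕ} {i : Fin (m + 1)} (h : i ≠ Fin.last m) :
    (finRotate (m + 1) i).val = i.val + 1 := by
  have := coe_finRotate_of_ne_last h
  exact this

/-- the cycle -/
def cyc (m : ℕ) (σ : ℕ → V) (hσ : σ (m + 1) = a (σ 0)) : LMap V (Fin (m + 1) × Bool) a where
  φ := cycφ m
  ι := cycι m
  ιι := by rintro ⟨i, b⟩; simp [cycι]
  ne := by rintro ⟨i, b⟩; simp [cycι]
  f := cycf m σ
  γ := fun _ => 0
  h := cych m
  γι := by simp
  tgt := by
    rintro ⟨i, b⟩
    cases b
    · simp only [cycι, cycφ, cycf, cych, Equiv.coe_fn_mk, Bool.not_false, if_true, zpow_zero,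
        Equiv.Perm.coe_one, id, Bool.false_eq_true, if_false]
      by_cases hi : i = Fin.last m
      · subst hi
        rw [finRotate_last]
        simp [hσ]
      · rw [if_neg hi, rot_ne hi]
        simp
    · obtain ⟨j, rfl⟩ : ∃ j, finRotate (m + 1) j = i := ⟨(finRotate (m + 1)).symm i, by simp⟩
      simp only [cycι, cycφ, cycf, cych, Equiv.coe_fn_mk, Bool.not_true, if_true, zpow_zero,
        Equiv.Perm.coe_one, id, Bool.false_eq_true, if_false, Equiv.symm_apply_apply]
      by_cases hj : j = Fin.last m
      · subst hj
        rw [finRotate_last]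
        simp [hσ]
      · have h0 : finRotate (m + 1) j ≠ 0 := by
          intro h
          have := congrArg Fin.val h
          rw [rot_ne hj] at this
          simp at this
        rw [if_neg h0, rot_ne hj]
        simp

end

theorem cycM : CycMStatement := by
  intro V X a hX ha x s hs
  -- the length of `s`
  have hlen : 2 ≤ s.length := by
    rcases s with _ | ⟨y, _ | ⟨z, l⟩⟩
    · have := hs.first
      simp at this
    · exfalso
      have h1 := hs.first
      have h2 := hs.last
      simp at h1 h2
      have h3 : (a ^ (1 : ℤ)) x = x := by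
        rw [zpow_one, ← h2, h1]
      have := ha.free x 1 h3
      omega
    · simp
  obtain ⟨m, hm⟩ : ∃ m, s.length = m + 2 := ⟨s.length - 2, by omega⟩
  set σ : ℕ → V := fun i => s.getD i x with hσdef
  have hσ : ∀ (i : ℕ) (hi : i < s.length), σ i = s[i] := by
    intro i hi
    simp [hσdef, hi]
  have hσ0 : σ 0 = x := by
    have h1 := hs.first
    rw [hσ 0 (by omega)]
    rw [List.head?_eq_getElem?] at h1
    rw [List.getElem?_eq_getElem (by omega)] at h1
    exact Option.some.inj h1
  have hσl : σ (m + 1) = a (σ 0) := by
    have h1 := hs.last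
    rw [hσ (m + 1) (by omega), hσ0]
    rw [List.getLast?_eq_getElem?] at h1
    have h2 : s.length - 1 = m + 1 := by omega
    rw [h2, List.getElem?_eq_getElem (by omega)] at h1
    exact Option.some.inj h1
  set M := cyc m σ hσl with hM
  have tF : ∀ i : Fin (m + 1), M.t (i, false) = σ (i.val + 1) := by
    intro i
    simp [hM, LMap.t, cyc, cycι, cycf]
  have tT : ∀ i : Fin (m + 1), M.t (i, true) = σ i.val := by
    intro i
    simp [hM, LMap.t, cyc, cycι, cycf]
  have fF : ∀ i : Fin (m + 1), M.f (i, false) = σ i.val := by
    intro i
    simp [hM, cyc, cycf]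
  have fT : ∀ i : Fin (m + 1), M.f (i, true) = σ (i.val + 1) := by
    intro i
    simp [hM, cyc, cycf]
  have φF : ∀ i : Fin (m + 1), M.φ (i, false) = (finRotate (m + 1) i, false) := by
    intro i
    simp [hM, cyc, cycφ]
  have φT : ∀ i : Fin (m + 1), M.φ (i, true) = ((finRotate (m + 1)).symm i, true) := by
    intro i
    simp [hM, cyc, cycφ]
  have ιF : ∀ i : Fin (m + 1), M.ι (i, false) = (i, true) := by
    intro i
    simp [hM, cyc, cycι]
  have ιT : ∀ i : Fin (m + 1), M.ι (i, true) = (i, false) := by
    intro i
    simp [hM, cyc, cycι]
  have hF : ∀ i : Fin (m + 1), M.h (i, false) = if i = Fin.last m then 1 else 0 := by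
    intro i
    simp [hM, cyc, cych]
  have hT : ∀ i : Fin (m + 1), M.h (i, true) = if i = 0 then -1 else 0 := by
    intro i
    simp [hM, cyc, cych]
  -- adjacency in `s`
  have hadj : ∀ i : Fin (m + 1), X.G.Adj (σ i.val) (σ (i.val + 1)) := by
    intro i
    have hi := i.isLt
    rw [hσ _ (by omega), hσ _ (by omega)]
    have hc := hs.chain
    rw [List.isChain_iff_getElem] at hc
    exact hc i.val (by omega)
  set P : List (Fin (m + 1) × Bool) := List.ofFn (fun i : Fin (m + 1) => (i, false)) with hP
  set Q : List (Fin (m + 1) × Bool) :=
    (List.ofFn (fun i : Fin (m + 1) => (i, true))).reverse with hQ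
  have hPlen : P.length = m + 1 := by simp [hP]
  have hQlen : Q.length = m + 1 := by simp [hQ]
  have hPget : ∀ (i : ℕ) (hi : i < P.length), P[i] = ((⟨i, by omega⟩ : Fin (m + 1)), false) := by
    intro i hi
    simp only [hP, List.getElem_ofFn]
  have hQget : ∀ (i : ℕ) (hi : i < Q.length),
      Q[i] = ((⟨m - i, by omega⟩ : Fin (m + 1)), true) := by
    intro i hi
    simp only [hQ, List.getElem_reverse, List.getElem_ofFn, List.length_ofFn]
    congr 1
  have memP : ∀ i : Fin (m + 1), (i, false) ∈ P := by
    intro i
    rw [hP, List.mem_ofFn]
    exact ⟨i, rfl⟩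
  have memQ : ∀ i : Fin (m + 1), (i, true) ∈ Q := by
    intro i
    rw [hQ, List.mem_reverse, List.mem_ofFn]
    exact ⟨i, rfl⟩
  have hfaceP : M.IsFace P := by
    refine ⟨?_, ?_, ?_⟩
    · intro h
      rw [h] at hPlen
      simp at hPlen
    · rw [hP, List.nodup_ofFn]
      intro i j hij
      exact (Prod.mk.inj hij).1
    · apply List.ext_getElem
      · simp
      · intro i h1 h2
        rw [List.getElem_map, List.getElem_rotate, hPget, hPget, φF]
        congr 1
        have hi : i < m + 1 := by
          rw [List.length_map, hPlen] at h1
          exact h1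
        by_cases hl : (⟨i, hi⟩ : Fin (m + 1)) = Fin.last m
        · rw [hl, finRotate_last]
          have : i = m := congrArg Fin.val hl
          apply Fin.ext
          simp [hPlen, this]
        · apply Fin.ext
          rw [rot_ne hl]
          have : i ≠ m := fun h => hl (Fin.ext h)
          simp only [hPlen]
          rw [Nat.mod_eq_of_lt (by omega)]
  have hfaceQ : M.IsFace Q := by
    refine ⟨?_, ?_, ?_⟩
    · intro h
      rw [h] at hQlen
      simp at hQlen
    · rw [hQ, List.nodup_reverse, List.nodup_ofFn]
      intro i j hij
      exact (Prod.mk.inj hij).1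
    · apply List.ext_getElem
      · simp
      · intro i h1 h2
        rw [List.getElem_map, List.getElem_rotate, hQget, hQget, φT]
        congr 1
        have hi : i < m + 1 := by
          rw [List.length_map, hQlen] at h1
          exact h1
        rw [Equiv.symm_apply_eq]
        by_cases hl : i = m
        · subst hl
          have h3 : (⟨i - (i + 1) % Q.length, by omega⟩ : Fin (i + 1)) = Fin.last i := by
            apply Fin.ext
            simp [hQlen]
          rw [h3, finRotate_last]
          apply Fin.ext
          simp
        · have h3 : (i + 1) % Q.length = i + 1 := by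
            rw [hQlen]
            exact Nat.mod_eq_of_lt (by omega)
          apply Fin.ext
          rw [rot_ne]
          · simp only [h3]
            omega
          · intro h
            have := congrArg Fin.val h
            simp only [h3, Fin.val_last] at this
            omega
  -- walks
  have hwP : M.wk P = s := by
    have h1 : M.wkA 0 P = P.map M.t := by
      apply wkA_eq
      intro r hr
      obtain ⟨i, hi, rfl⟩ := List.getElem_of_mem hr
      rw [List.length_dropLast, hPlen] at hi
      rw [List.getElem_dropLast, hPget, hF, if_neg]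
      intro h
      have := congrArg Fin.val h
      simp at this
      omega
    have h2 : M.wk P = M.f (0, false) :: P.map M.t := by
      have h3 : P = (0, false) :: P.tail := by
        rw [hP, List.ofFn_succ]
        rfl
      rw [← h1]
      conv_lhs => rw [h3]
      conv_rhs => rw [h3]
      rfl
    rw [h2]
    apply List.ext_getElem
    · simp [hPlen, hm]
    · intro i h3 h4
      rcases i with _ | i
      · simp only [List.getElem_cons_zero]
        rw [fF, ← hσ 0 (by omega)]
        rfl
      · simp only [List.getElem_cons_succ, List.getElem_map]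
        rw [hPget, tF, ← hσ]
  have hwQ : M.wk Q = s.reverse := by
    have h1 : M.wkA 0 Q = Q.map M.t := by
      apply wkA_eq
      intro r hr
      obtain ⟨i, hi, rfl⟩ := List.getElem_of_mem hr
      rw [List.length_dropLast, hQlen] at hi
      rw [List.getElem_dropLast, hQget, hT, if_neg]
      intro h
      have := congrArg Fin.val h
      simp at this
      omega
    have h2 : M.wk Q = M.f (Fin.last m, true) :: Q.map M.t := by
      have h3 : ∃ l, Q = (Fin.last m, true) :: l := by
        rcases hq : Q with _ | ⟨r, l⟩
        · rw [hq] at hQlen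
          simp at hQlen
        · refine ⟨l, ?_⟩
          have := hQget 0 (by omega)
          simp only [hq, List.getElem_cons_zero] at this
          rw [this]
          congr 1
      obtain ⟨l, h3⟩ := h3
      rw [← h1]
      rw [h3]
      rfl
    rw [h2]
    apply List.ext_getElem
    · simp [hQlen, hm]
    · intro i h3 h4
      rw [List.length_reverse] at h4
      rw [List.getElem_reverse, ← hσ]
      rcases i with _ | i
      · simp only [List.getElem_cons_zero]
        rw [fT]
        congr 1
        simp
        omega
      · simp only [List.getElem_cons_succ, List.getElem_map]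
        rw [hQget, tT]
        congr 1
        simp only
        omega
  refine ⟨Fin (m + 1) × Bool, inferInstance, M, P, Q, ?_, ?_, hwP, ?_⟩
  · refine ⟨?_, hfaceP, hfaceQ, ?_, ?_, ?_, ?_, Or.inl rfl⟩
    · -- planar
      intro k hk
      refine ⟨fun d => if d.2 then k (M.φ (M.ι d)) else k d, ?_, ?_⟩
      · rintro ⟨i, b⟩
        cases b
        · rw [φF, ιF]
          simp only [Bool.false_eq_true, if_false, if_true]
          rw [ιT, φF]
        · rw [φT, ιT]
          simp only [Bool.false_eq_true, if_false, if_true]
          rw [ιT, φF, Equiv.apply_symm_apply]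
      · rintro ⟨i, b⟩
        cases b
        · rw [φF]
          simp only [Bool.false_eq_true, if_false]
          rw [CharTwo.add_self_eq_zero, CharTwo.add_self_eq_zero]
        · rw [φT]
          simp only [if_true]
          rw [ιT, ιT, φF, φF, Equiv.apply_symm_apply]
          have h1 := hk (i, true)
          rw [ιT, φF, φT] at h1
          -- h1 : k (rot i, false) + k (i, false) = k (rot⁻¹ i, true) + k (i, true)
          have h2 : k (((finRotate (m + 1)).symm i), true) + k (i, false) -
              (k (i, true) + k (finRotate (m + 1) i, false)) = 0 := by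
            have e1 : k (((finRotate (m + 1)).symm i), true) =
                k (finRotate (m + 1) i, false) + k (i, false) - k (i, true) := by
              rw [h1]
              ring
            rw [e1]
            have e2 : k (finRotate (m + 1) i, false) + k (i, false) - k (i, true) + k (i, false) -
              (k (i, true) + k (finRotate (m + 1) i, false)) =
              (k (i, false) + k (i, false)) - (k (i, true) + k (i, true)) := by ring
            rw [e2, CharTwo.add_self_eq_zero, CharTwo.add_self_eq_zero, sub_zero]
          exact sub_eq_zero.mp h2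
    · rintro ⟨i, b⟩ h1 h2
      rw [hP, List.mem_ofFn] at h1
      rw [hQ, List.mem_reverse, List.mem_ofFn] at h2
      obtain ⟨j, hj⟩ := h1
      obtain ⟨j', hj'⟩ := h2
      have e1 := (Prod.mk.inj hj).2
      have e2 := (Prod.mk.inj hj').2
      rw [← e1] at e2
      exact absurd e2 (by decide)
    · have hall : ∀ d : Fin (m + 1) × Bool, d ∈ annB P Q := by
        rintro ⟨i, b⟩
        cases b
        · exact Or.inl (memP i)
        · exact Or.inr (memQ i)
      exact ⟨fun d _ => hall _, fun d hd => absurd (hall d) hd⟩
    · show (P.map M.h).sum = 1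
      rw [hP, List.map_ofFn, List.sum_ofFn]
      simp only [Function.comp]
      simp only [hF]
      simp
    · show (Q.map M.h).sum = -1
      rw [hQ, List.map_reverse, List.sum_reverse, List.map_ofFn, List.sum_ofFn]
      simp only [Function.comp]
      simp only [hT]
      simp
  · rintro ⟨i, b⟩
    cases b
    · rw [fF, tF]
      exact hadj i
    · rw [fT, tT]
      exact (hadj i).symm
  · refine ⟨hfaceQ, 0, ?_, fun _ => rfl⟩
    rw [hwQ]
    simp

end MSG.H16
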