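import Pool.Agent.Lib.MP_acafa7_al.MS.Iface2

/-! Module FlipM: flips of metric annuli (9.1). -/

namespace MSG.H16

open Classical

section

variable {V D : Type} {a : Equiv.Perm V}

lemma sh_sh (n m : ℤ) (u : V → ℝ) : sh a n (sh a m u) = sh a (n + m) u := by
  funext z
  simp only [sh]
  rw [← Equiv.Perm.mul_apply, ← zpow_add]
  have : -m + -n = -(n + m) := by ring
  rw [this]

lemma sh_zero (u : V → ℝ) : sh a 0 u = u := by
  funext z
  simp [sh]

/-- filling at a dart -/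
def FilAt (X : Cx V) (C : ℝ) (M : LMap V D a) (ℓ : D → ℝ) (e : D → ℝ → V → ℝ) (d : D) : Prop :=
  Fil X C (ℓ d) (ℓ (M.φ d)) (ℓ (M.φ (M.φ d))) (e d)
    (fun s => sh a (M.h d) (e (M.φ d) s))
    (fun s => sh a (M.h d + M.h (M.φ d)) (e (M.φ (M.φ d)) s))

lemma filAt_step (hFilR : FilRStatement) {X : Cx V} {C : ℝ} (ha : FreeAut X a) (M : LMap V D a)
    (ℓ : D → ℝ) (e : D → ℝ → V → ℝ) (d : D) (h3 : M.φ (M.φ (M.φ d)) = d)
    (hh : M.h d + M.h (M.φ d) + M.h (M.φ (M.φ d)) = 0) (H : FilAt X C M ℓ e d) :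
    FilAt X C M ℓ e (M.φ d) := by
  have h1 := (hFilR V X a ha C _ _ _ _ _ _ H).1
  have h2 := (hFilR V X a ha C _ _ _ _ _ _ h1).2.1 (-(M.h d))
  unfold FilAt
  rw [h3]
  simp only [sh_sh] at h2
  have e1 : -(M.h d) + M.h d = 0 := by ring
  have e2 : -(M.h d) + (M.h d + M.h (M.φ d)) = M.h (M.φ d) := by ring
  have e3 : -(M.h d) = M.h (M.φ d) + M.h (M.φ (M.φ d)) := by linarith
  rw [e1, e2, e3] at h2
  simp only [sh_zero] at h2
  exact h2

lemma tri3_ne {M : DMap D} {s : D} (h : M.Tri3 s) : s ≠ M.φ s ∧ s ≠ M.φ (M.φ s) ∧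
    M.φ s ≠ M.φ (M.φ s) := by
  refine ⟨fun h' => h.2 h'.symm, ?_, ?_⟩
  · intro h'
    apply h.2
    calc M.φ s = M.φ (M.φ (M.φ s)) := by rw [← h']
      _ = s := h.1
  · intro h'
    exact h.2 (M.φ.injective h').symm

/-- the two triangles of a flip are disjoint -/
lemma six_ne {M : DMap D} {s t : D} (hs : M.Tri3 s) (ht : M.Tri3 t) (h0 : t ≠ s) (h1 : t ≠ M.φ s)
    (h2 : t ≠ M.φ (M.φ s)) :
    M.φ t ≠ s ∧ M.φ t ≠ M.φ s ∧ M.φ t ≠ M.φ (M.φ s) ∧
    M.φ (M.φ t) ≠ s ∧ M.φ (M.φ t) ≠ M.φ s ∧ M.φ (M.φ t) ≠ M.φ (M.φ s) := by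
  have inj := M.φ.injective
  have a0 : M.φ t ≠ s := by
    intro h
    apply h2
    apply inj
    rw [h, hs.1]
  have a1 : M.φ t ≠ M.φ s := fun h => h0 (inj h)
  have a2 : M.φ t ≠ M.φ (M.φ s) := fun h => h1 (inj h)
  refine ⟨a0, a1, a2, ?_, fun h => a0 (inj h), fun h => a1 (inj h)⟩
  intro h
  apply a2
  apply inj
  rw [h, hs.1]

/-- not in the triangle of `s` -/
lemma out_tri {M : DMap D} {s d : D} (hs : M.Tri3 s) (h0 : d ≠ s) (h1 : d ≠ M.φ s)
    (h2 : d ≠ M.φ (M.φ s)) : M.φ d ≠ s ∧ M.φ d ≠ M.φ s ∧ M.φ d ≠ M.φ (M.φ s) := by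
  have inj := M.φ.injective
  refine ⟨?_, fun h => h0 (inj h), fun h => h1 (inj h)⟩
  intro h
  apply h2
  apply inj
  rw [h, hs.1]

end

theorem flipCore (hFlipL : FlipLStatement) (hFlipG : FlipGStatement) (hFilR : FilRStatement)
    (V D : Type) [Fintype D] (X : Cx V) (a : Equiv.Perm V) (C : ℝ) (ha : FreeAut X a) (hC : 0 < C)
    (M : LMap V D a) (P Q : List D) (ε : ℤ) (ℓ : D → ℝ) (e : D → ℝ → V → ℝ)
    (hA : IsMA X C M P Q ε ℓ e) (s : D) (hs : s ∉ annB P Q) (hιs : M.ι s ∉ annB P Q)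
    (hne1 : M.ι s ≠ M.φ s) (hne2 : M.ι s ≠ M.φ (M.φ s))
    (hv : M.th ℓ s + M.th ℓ (M.φ (M.ι s)) < Real.pi)
    (hw : M.th ℓ (M.ι s) + M.th ℓ (M.φ s) < Real.pi) :
    ∃ (M' : LMap V D a) (ℓ' : D → ℝ) (e' : D → ℝ → V → ℝ), IsFlipL M M' s ∧
      IsMA X C M' P Q ε ℓ' e' ∧
      (∀ d, d ≠ s → d ≠ M.ι s → ℓ' d = ℓ d ∧
        M'.curv ℓ' (annB P Q) d = M.curv ℓ (annB P Q) d) ∧
      (∀ d, d ≠ s → d ≠ M.φ s → d ≠ M.φ (M.φ s) → d ≠ M.ι s → d ≠ M.φ (M.ι s) →
        d ≠ M.φ (M.φ (M.ι s)) → M'.th ℓ' d = M.th ℓ d) ∧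
      M'.th ℓ' (M.φ (M.ι s)) = M.th ℓ s + M.th ℓ (M.φ (M.ι s)) ∧
      M'.th ℓ' (M.φ s) = M.th ℓ (M.φ s) + M.th ℓ (M.ι s) ∧
      M'.th ℓ' (M.φ (M.φ s)) + M'.th ℓ' (M.ι s) = M.th ℓ (M.φ (M.φ s)) ∧
      M'.th ℓ' (M.φ (M.φ (M.ι s))) + M'.th ℓ' s = M.th ℓ (M.φ (M.φ (M.ι s))) := by
  set B := annB P Q with hB
  have hann := hA.ann
  have hoff := hann.off
  have hTs : M.Tri s := hoff.2 s hs
  have hTt : M.Tri (M.ι s) := hoff.2 _ hιs
  obtain ⟨M', hF, hpl⟩ := hFlipL V D a M s hTs hTt hne1 hne2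
  have hfl := hF.flip
  -- names
  obtain ⟨t, ht⟩ : ∃ t, t = M.ι s := ⟨_, rfl⟩
  obtain ⟨d1, hd1⟩ : ∃ d1, d1 = M.φ s := ⟨_, rfl⟩
  obtain ⟨d2, hd2⟩ : ∃ d2, d2 = M.φ d1 := ⟨_, rfl⟩
  obtain ⟨t1, ht1⟩ : ∃ t1, t1 = M.φ t := ⟨_, rfl⟩
  obtain ⟨t2, ht2⟩ : ∃ t2, t2 = M.φ t1 := ⟨_, rfl⟩
  have hd3 : M.φ d2 = s := by rw [hd2, hd1]; exact hTs.1.1
  have ht3 : M.φ t2 = t := by rw [ht2, ht1, ht]; exact hTt.1.1
  have hιt : M.ι t = s := by rw [ht]; exact M.ιι s
  -- distinctness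
  have n1 := tri3_ne hTs.1
  have n2 := tri3_ne hTt.1
  have n3 := six_ne hTs.1 hTt.1 (M.ne s) hne1 hne2
  rw [← ht] at hιs hne1 hne2 hv hw hTt n2 n3
  rw [← hd1] at hne1 hne2 hw n1 n3
  rw [← hd2] at hne2 n1 n3
  rw [← ht1] at hv n2 n3
  rw [← ht2] at n2 n3
  have hts : t ≠ s := by rw [ht]; exact M.ne s
  obtain ⟨s_d1, s_d2, d1_d2⟩ := n1
  obtain ⟨t_t1, t_t2, t1_t2⟩ := n2
  obtain ⟨t1_s, t1_d1, t1_d2, t2_s, t2_d1, t2_d2⟩ := n3
  -- the new map
  have p0 : M'.φ s = d2 := by rw [hd2, hd1]; exact hfl.f0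
  have p1 : M'.φ d2 = t1 := by rw [hd2, hd1, ht1, ht]; exact hfl.f1
  have p2 : M'.φ t1 = s := by rw [ht1, ht]; exact hfl.f2
  have p3 : M'.φ t = t2 := by rw [ht2, ht1, ht]; exact hfl.f3
  have p4 : M'.φ t2 = d1 := by rw [ht2, ht1, ht, hd1]; exact hfl.f4
  have p5 : M'.φ d1 = t := by rw [hd1, ht]; exact hfl.f5
  have prest : ∀ d, d ≠ s → d ≠ d1 → d ≠ d2 → d ≠ t → d ≠ t1 → d ≠ t2 → M'.φ d = M.φ d := by
    intro d h0 h1 h2 h3 h4 h5
    rw [hd1] at h1
    rw [hd2, hd1] at h2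
    rw [ht] at h3
    rw [ht1, ht] at h4
    rw [ht2, ht1, ht] at h5
    exact hfl.rest d h0 h1 h2 h3 h4 h5
  have outR : ∀ d, d ≠ s → d ≠ d1 → d ≠ d2 → d ≠ t → d ≠ t1 → d ≠ t2 →
      M.φ d ≠ s ∧ M.φ d ≠ d1 ∧ M.φ d ≠ d2 ∧ M.φ d ≠ t ∧ M.φ d ≠ t1 ∧ M.φ d ≠ t2 := by
    intro d h0 h1 h2 h3 h4 h5
    have inj := M.φ.injective
    refine ⟨?_, ?_, ?_, ?_, ?_, ?_⟩
    · rw [← hd3]; exact fun h => h2 (inj h)
    · rw [hd1]; exact fun h => h0 (inj h)
    · rw [hd2]; exact fun h => h1 (inj h)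
    · rw [← ht3]; exact fun h => h5 (inj h)
    · rw [ht1]; exact fun h => h3 (inj h)
    · rw [ht2]; exact fun h => h4 (inj h)
  have hι' : ∀ d, M'.ι d = M.ι d := hfl.ι
  -- shifts
  have hTs2 : M.h s + M.h d1 + M.h d2 = 0 := by rw [hd2, hd1]; exact hTs.2
  have hTt2 : M.h t + M.h t1 + M.h t2 = 0 := by rw [ht2, ht1]; exact hTt.2
  obtain ⟨α, hα⟩ : ∃ α, α = M.h s + M.h d1 := ⟨_, rfl⟩
  obtain ⟨β, hβ⟩ : ∃ β, β = M.γ s + (M.h t + M.h t1) := ⟨_, rfl⟩
  have hγt : M.γ t = - M.γ s := by rw [ht]; exact M.γι s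
  have gs : M'.γ s = α - β := by
    have := hF.γs
    rw [← ht, ← ht1, ← ht2, ← hd1] at this
    rw [this, hα, hβ, hγt]
    linarith
  have k0 : M'.h s = α - β := by rw [hF.h0, gs]
  have k1 : M'.h d2 = M.h d2 + M.γ s + M.h t := by
    have := hF.h1
    rw [← hd1, ← hd2, ← ht] at this
    exact this
  have k2 : M'.h t1 = M.h t1 := by
    have := hF.h2
    rw [← ht, ← ht1] at this
    exact this
  have k3 : M'.h t = β - α := by
    have := hF.h3
    rw [← ht] at this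
    rw [this, gs]
    ring
  have k4 : M'.h t2 = M.h t2 - M.γ s + M.h s := by
    have := hF.h4
    rw [← ht, ← ht1, ← ht2, hγt] at this
    rw [this]
    ring
  have k5 : M'.h d1 = M.h d1 := by
    have := hF.h5
    rw [← hd1] at this
    exact this
  have krest : ∀ d, d ≠ s → d ≠ d1 → d ≠ d2 → d ≠ t → d ≠ t1 → d ≠ t2 → M'.h d = M.h d := by
    intro d h0 h1 h2 h3 h4 h5
    rw [hd1] at h1
    rw [hd2, hd1] at h2
    rw [ht] at h3
    rw [ht1, ht] at h4
    rw [ht2, ht1, ht] at h5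
    exact hF.hr d h0 h1 h2 h3 h4 h5
  -- boundary
  have cl : ∀ d, d ∉ B → M.φ d ∉ B := by
    intro d hd h
    apply hd
    have h1 := hoff.1 _ (hoff.1 _ h)
    rw [(hoff.2 d hd).1.1] at h1
    exact h1
  have bd1 : d1 ∉ B := by rw [hd1]; exact cl s hs
  have bd2 : d2 ∉ B := by rw [hd2]; exact cl _ bd1
  have bt1 : t1 ∉ B := by rw [ht1]; exact cl _ hιs
  have bt2 : t2 ∉ B := by rw [ht2]; exact cl _ bt1
  have neB : ∀ d ∈ B, d ≠ s ∧ d ≠ d1 ∧ d ≠ d2 ∧ d ≠ t ∧ d ≠ t1 ∧ d ≠ t2 := by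
    intro d hd
    refine ⟨?_, ?_, ?_, ?_, ?_, ?_⟩ <;> rintro rfl
    · exact hs hd
    · exact bd1 hd
    · exact bd2 hd
    · exact hιs hd
    · exact bt1 hd
    · exact bt2 hd
  -- geometry
  have hlen := hA.lenok
  obtain ⟨lpos, lsym, ltri⟩ := hlen
  have lt : ℓ t = ℓ s := by rw [ht]; exact lsym s
  have q1 : ℓ d1 < ℓ s + ℓ d2 := by have := ltri s hs; rw [← hd1, ← hd2] at this; exact this
  have q2 : ℓ d2 < ℓ d1 + ℓ s := by have := ltri d1 bd1; rw [← hd2, hd3] at this; exact this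
  have q3 : ℓ s < ℓ d2 + ℓ d1 := by have := ltri d2 bd2; rw [hd3, ← hd1] at this; exact this
  have r1 : ℓ t1 < ℓ s + ℓ t2 := by
    have := ltri t hιs; rw [← ht1, ← ht2, lt] at this; exact this
  have r2 : ℓ t2 < ℓ t1 + ℓ s := by
    have := ltri t1 bt1; rw [← ht2, ht3, lt] at this; exact this
  have r3 : ℓ s < ℓ t2 + ℓ t1 := by
    have := ltri t2 bt2; rw [ht3, ← ht1, lt] at this; exact this
  have ths : M.th ℓ s = ang (ℓ s) (ℓ d2) (ℓ d1) := by unfold DMap.th; rw [← hd1, ← hd2]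
  have thd1 : M.th ℓ d1 = ang (ℓ d1) (ℓ s) (ℓ d2) := by unfold DMap.th; rw [← hd2, hd3]
  have thd2 : M.th ℓ d2 = ang (ℓ d2) (ℓ d1) (ℓ s) := by unfold DMap.th; rw [hd3, ← hd1]
  have tht : M.th ℓ t = ang (ℓ s) (ℓ t2) (ℓ t1) := by unfold DMap.th; rw [← ht1, ← ht2, lt]
  have tht1 : M.th ℓ t1 = ang (ℓ t1) (ℓ s) (ℓ t2) := by unfold DMap.th; rw [← ht2, ht3, lt]
  have tht2 : M.th ℓ t2 = ang (ℓ t2) (ℓ t1) (ℓ s) := by unfold DMap.th; rw [ht3, ← ht1, lt]
  have hQH : QH (ℓ s) (ℓ d1) (ℓ d2) (ℓ t1) (ℓ t2) := by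
    refine ⟨⟨lpos _, lpos _, lpos _, by linarith, by linarith, by linarith⟩,
      ⟨lpos _, lpos _, lpos _, by linarith, by linarith, by linarith⟩, ?_, ?_⟩
    · rw [← ths, ← tht1]; exact hv
    · rw [← thd1, ← tht, add_comm]; exact hw
  have hf1 : Fil X C (ℓ s) (ℓ d1) (ℓ d2) (e s) (fun u => sh a (M.h s) (e d1 u))
      (fun u => sh a α (e d2 u)) := by
    have := hA.fil s hs
    rw [← hd1, ← hd2, ← hα] at this
    exact this
  have hf2 : Fil X C (ℓ s) (ℓ t1) (ℓ t2) (fun u => e s (ℓ s - u))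
      (fun u => sh a (M.γ s + M.h t) (e t1 u)) (fun u => sh a β (e t2 u)) := by
    have h1 := hA.fil t hιs
    rw [← ht1, ← ht2, lt] at h1
    have h2 := (hFilR V X a ha C _ _ _ _ _ _ h1).2.1 (M.γ s)
    refine (hFilR V X a ha C _ _ _ _ _ _ h2).2.2 _ _ _ ?_ ?_ ?_
    · intro u hu0 hu1
      have := hA.eι s u hu0 hu1
      rw [← ht] at this
      exact this.symm
    · intro u _ _
      rw [sh_sh]
    · intro u _ _
      rw [sh_sh, hβ]
  obtain ⟨L, E', hL, hE0, hEL, hlip, hfA, hfB⟩ := hFlipG V X C hC.le _ _ _ _ _ _ _ _ _ _ hQH hf1 hf2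
  obtain ⟨tA, tB, hav, haw, hax, hay, -⟩ := hL
  -- new lengths and edge functions
  obtain ⟨ℓ', hℓ'⟩ : ∃ ℓ' : D → ℝ, ℓ' = fun d => if d = s ∨ d = t then L else ℓ d := ⟨_, rfl⟩
  obtain ⟨e', he'⟩ : ∃ e' : D → ℝ → V → ℝ, e' = fun d => if d = s then
    (fun u => sh a (-β) (E' u)) else if d = t then (fun u => sh a (-α) (E' (L - u))) else e d :=
    ⟨_, rfl⟩
  have ls : ℓ' s = L := by rw [hℓ']; simp
  have lt' : ℓ' t = L := by rw [hℓ']; simp
  have lr : ∀ d, d ≠ s → d ≠ t → ℓ' d = ℓ d := by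
    intro d h1 h2
    rw [hℓ']
    simp [h1, h2]
  have es : e' s = fun u => sh a (-β) (E' u) := by rw [he']; simp
  have et : e' t = fun u => sh a (-α) (E' (L - u)) := by rw [he']; simp [hts]
  have er : ∀ d, d ≠ s → d ≠ t → e' d = e d := by
    intro d h1 h2
    rw [he']
    simp [h1, h2]
  have ld1 : ℓ' d1 = ℓ d1 := lr _ s_d1.symm hne1.symm
  have ld2 : ℓ' d2 = ℓ d2 := lr _ s_d2.symm hne2.symm
  have lt1 : ℓ' t1 = ℓ t1 := lr _ t1_s t_t1.symm
  have lt2 : ℓ' t2 = ℓ t2 := lr _ t2_s t_t2.symm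
  have ed1 : e' d1 = e d1 := er _ s_d1.symm hne1.symm
  have ed2 : e' d2 = e d2 := er _ s_d2.symm hne2.symm
  have et1 : e' t1 = e t1 := er _ t1_s t_t1.symm
  have et2 : e' t2 = e t2 := er _ t2_s t_t2.symm
  -- angles of the new map
  have ths' : M'.th ℓ' s = ang L (ℓ t1) (ℓ d2) := by unfold DMap.th; rw [p0, p1, ls, lt1, ld2]
  have thd2' : M'.th ℓ' d2 = ang (ℓ d2) L (ℓ t1) := by unfold DMap.th; rw [p1, p2, ls, lt1, ld2]
  have tht1' : M'.th ℓ' t1 = ang (ℓ t1) (ℓ d2) L := by unfold DMap.th; rw [p2, p0, ls, lt1, ld2]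
  have tht' : M'.th ℓ' t = ang L (ℓ d1) (ℓ t2) := by unfold DMap.th; rw [p3, p4, lt', lt2, ld1]
  have tht2' : M'.th ℓ' t2 = ang (ℓ t2) L (ℓ d1) := by unfold DMap.th; rw [p4, p5, lt', lt2, ld1]
  have thd1' : M'.th ℓ' d1 = ang (ℓ d1) (ℓ t2) L := by unfold DMap.th; rw [p5, p3, lt', lt2, ld1]
  have thr : ∀ d, d ≠ s → d ≠ d1 → d ≠ d2 → d ≠ t → d ≠ t1 → d ≠ t2 →
      M'.th ℓ' d = M.th ℓ d := by
    intro d h0 h1 h2 h3 h4 h5
    obtain ⟨i0, i1, i2, i3, i4, i5⟩ := outR d h0 h1 h2 h3 h4 h5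
    obtain ⟨j0, -, -, j3, -, -⟩ := outR _ i0 i1 i2 i3 i4 i5
    unfold DMap.th
    rw [prest d h0 h1 h2 h3 h4 h5, prest _ i0 i1 i2 i3 i4 i5, lr d h0 h3, lr _ i0 i3, lr _ j0 j3]
  have A1 : M'.th ℓ' t1 = M.th ℓ s + M.th ℓ t1 := by rw [tht1', ths, tht1]; exact hav
  have A2 : M'.th ℓ' d1 = M.th ℓ d1 + M.th ℓ t := by rw [thd1', thd1, tht]; exact haw
  have A3 : M'.th ℓ' d2 + M'.th ℓ' t = M.th ℓ d2 := by rw [thd2', tht', thd2]; exact hax
  have A4 : M'.th ℓ' t2 + M'.th ℓ' s = M.th ℓ t2 := by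
    rw [tht2', ths', tht2, add_comm]; exact hay
  -- curvature
  have svn : ∀ x y, x ≠ s → x ≠ t → y ≠ s → y ≠ t → (M'.SameV x y ↔ M.SameV x y) := by
    intro x y h1 h2 h3 h4
    rw [ht] at h2 h4
    exact hfl.sv x y h1 h2 h3 h4
  have sv0 : M'.SameV s t2 := by rw [ht2, ht1, ht]; exact hfl.sv0
  have sv1 : M'.SameV t d2 := by rw [hd2, hd1, ht]; exact hfl.sv1
  have svs : M.SameV t1 s := by
    have := M.sameV_step t
    rw [← ht1, hιt] at this
    exact this
  have svt : M.SameV d1 t := by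
    have := M.sameV_step s
    rw [← hd1, ← ht] at this
    exact this
  have key : ∀ d, d ≠ s → d ≠ t → M'.curv ℓ' B d = M.curv ℓ B d := by
    intro d hds hdt
    unfold DMap.curv
    congr 1
    have hnmem : ∀ (f : D → ℝ), ∑ x ∈ ({s, d1, d2, t, t1, t2} : Finset D), f x =
        f s + (f d1 + (f d2 + (f t + (f t1 + f t2)))) := by
      intro f
      rw [Finset.sum_insert, Finset.sum_insert, Finset.sum_insert, Finset.sum_insert,
        Finset.sum_insert, Finset.sum_singleton]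
      · simpa using t1_t2
      · simp only [Finset.mem_insert, Finset.mem_singleton, not_or]
        exact ⟨t_t1, t_t2⟩
      · simp only [Finset.mem_insert, Finset.mem_singleton, not_or]
        exact ⟨hne2.symm, t1_d2.symm, t2_d2.symm⟩
      · simp only [Finset.mem_insert, Finset.mem_singleton, not_or]
        exact ⟨d1_d2, hne1.symm, t1_d1.symm, t2_d1.symm⟩
      · simp only [Finset.mem_insert, Finset.mem_singleton, not_or]
        exact ⟨s_d1, s_d2, hts.symm, t1_s.symm, t2_s.symm⟩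
    rw [← Finset.sum_add_sum_compl ({s, d1, d2, t, t1, t2} : Finset D),
      ← Finset.sum_add_sum_compl ({s, d1, d2, t, t1, t2} : Finset D)
        (fun x => if M.SameV d x then M.wt ℓ B x else 0)]
    congr 1
    · rw [hnmem, hnmem]
      have w' : ∀ x, x ∉ B → M'.wt ℓ' B x = M'.th ℓ' x := fun x hx => by
        unfold DMap.wt; rw [if_neg hx]
      have w : ∀ x, x ∉ B → M.wt ℓ B x = M.th ℓ x := fun x hx => by
        unfold DMap.wt; rw [if_neg hx]
      rw [w' s hs, w' d1 bd1, w' d2 bd2, w' t hιs, w' t1 bt1, w' t2 bt2, w s hs, w d1 bd1,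
        w d2 bd2, w t hιs, w t1 bt1, w t2 bt2]
      have c1 : M'.SameV d d1 ↔ M.SameV d d1 := svn d d1 hds hdt s_d1.symm hne1.symm
      have c2 : M'.SameV d d2 ↔ M.SameV d d2 := svn d d2 hds hdt s_d2.symm hne2.symm
      have c3 : M'.SameV d t1 ↔ M.SameV d t1 := svn d t1 hds hdt t1_s t_t1.symm
      have c4 : M'.SameV d t2 ↔ M.SameV d t2 := svn d t2 hds hdt t2_s t_t2.symm
      have c5 : M'.SameV d s ↔ M.SameV d t2 := by
        rw [← c4]
        exact ⟨fun h => M'.sameV_trans h sv0, fun h => M'.sameV_trans h (M'.sameV_symm sv0)⟩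
      have c6 : M'.SameV d t ↔ M.SameV d d2 := by
        rw [← c2]
        exact ⟨fun h => M'.sameV_trans h sv1, fun h => M'.sameV_trans h (M'.sameV_symm sv1)⟩
      have c7 : M.SameV d s ↔ M.SameV d t1 :=
        ⟨fun h => M.sameV_trans h (M.sameV_symm svs), fun h => M.sameV_trans h svs⟩
      have c8 : M.SameV d t ↔ M.SameV d d1 :=
        ⟨fun h => M.sameV_trans h (M.sameV_symm svt), fun h => M.sameV_trans h svt⟩
      simp only [c1, c2, c3, c4, c5, c6, c7, c8]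
      by_cases e1 : M.SameV d d1 <;> by_cases e2 : M.SameV d d2 <;>
        by_cases e3 : M.SameV d t1 <;> by_cases e4 : M.SameV d t2 <;>
        simp only [e1, e2, e3, e4, if_true, if_false] <;> linarith
    · apply Finset.sum_congr rfl
      intro x hx
      simp only [Finset.mem_compl, Finset.mem_insert, Finset.mem_singleton, not_or] at hx
      obtain ⟨h0, h1, h2, h3, h4, h5⟩ := hx
      have c1 : M'.SameV d x ↔ M.SameV d x := svn d x hds hdt h0 h3
      have c2 : M'.wt ℓ' B x = M.wt ℓ B x := by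
        unfold DMap.wt
        rw [thr x h0 h1 h2 h3 h4 h5]
      simp only [c1, c2]
  refine ⟨M', ℓ', e', hF, ?_, ?_, ?_, ?_, ?_, ?_, ?_⟩
  · -- metric annulus
    have triS : M'.Tri3 s := by
      refine ⟨by rw [p0, p1, p2], ?_⟩
      rw [p0]; exact s_d2.symm
    have triT : M'.Tri3 t := by
      refine ⟨by rw [p3, p4, p5], ?_⟩
      rw [p3]; exact t_t2.symm
    have hsS : M'.h s + M'.h d2 + M'.h t1 = 0 := by
      rw [k0, k1, k2, hα, hβ]; linarith
    have hsT : M'.h t + M'.h t2 + M'.h d1 = 0 := by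
      rw [k3, k4, k5, hα, hβ]; linarith
    have offTri : ∀ d, d ∉ B → M'.Tri d := by
      intro d hd
      by_cases h0 : d = s
      · subst h0
        exact ⟨triS, by rw [p0, p1]; exact hsS⟩
      by_cases h1 : d = d2
      · subst h1
        refine ⟨⟨by rw [p1, p2, p0], by rw [p1]; exact t1_d2⟩, ?_⟩
        rw [p1, p2]; linarith
      by_cases h2 : d = t1
      · subst h2
        refine ⟨⟨by rw [p2, p0, p1], by rw [p2]; exact t1_s.symm⟩, ?_⟩
        rw [p2, p0]; linarith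
      by_cases h3 : d = t
      · subst h3
        exact ⟨triT, by rw [p3, p4]; exact hsT⟩
      by_cases h4 : d = t2
      · subst h4
        refine ⟨⟨by rw [p4, p5, p3], by rw [p4]; exact t2_d1.symm⟩, ?_⟩
        rw [p4, p5]; linarith
      by_cases h5 : d = d1
      · subst h5
        refine ⟨⟨by rw [p5, p3, p4], by rw [p5]; exact hne1⟩, ?_⟩
        rw [p5, p3]; linarith
      have hT := hoff.2 d hd
      obtain ⟨i0, i1, i2, i3, i4, i5⟩ := outR d h0 h5 h1 h3 h2 h4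
      obtain ⟨j0, j1, j2, j3, j4, j5⟩ := outR _ i0 i1 i2 i3 i4 i5
      refine ⟨⟨?_, ?_⟩, ?_⟩
      · rw [prest d h0 h5 h1 h3 h2 h4, prest _ i0 i1 i2 i3 i4 i5, prest _ j0 j1 j2 j3 j4 j5]
        exact hT.1.1
      · rw [prest d h0 h5 h1 h3 h2 h4]
        exact hT.1.2
      · rw [prest d h0 h5 h1 h3 h2 h4, prest _ i0 i1 i2 i3 i4 i5, krest d h0 h5 h1 h3 h2 h4,
          krest _ i0 i1 i2 i3 i4 i5, krest _ j0 j1 j2 j3 j4 j5]
        exact hT.2
    have face : ∀ R : List D, (∀ d ∈ R, d ∈ B) → M.IsFace R → M'.IsFace R := by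
      intro R hR hface
      refine ⟨hface.1, hface.2.1, ?_⟩
      rw [← hface.2.2]
      apply List.map_congr_left
      intro d hd
      obtain ⟨h0, h1, h2, h3, h4, h5⟩ := neB d (hR d hd)
      exact prest d h0 h1 h2 h3 h4 h5
    have hol : ∀ R : List D, (∀ d ∈ R, d ∈ B) → M'.hol R = M.hol R := by
      intro R hR
      unfold LMap.hol
      congr 1
      apply List.map_congr_left
      intro d hd
      obtain ⟨h0, h1, h2, h3, h4, h5⟩ := neB d (hR d hd)
      exact krest d h0 h1 h2 h3 h4 h5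
    have hPB : ∀ d ∈ P, d ∈ B := fun d hd => Or.inl hd
    have hQB : ∀ d ∈ Q, d ∈ B := fun d hd => Or.inr hd
    refine ⟨⟨hpl hann.planar, face P hPB hann.faceP, face Q hQB hann.faceQ, hann.disj, ⟨?_, offTri⟩,
      by rw [hol P hPB]; exact hann.holP, by rw [hol Q hQB]; exact hann.holQ, hann.eps⟩,
      ⟨?_, ?_, ?_⟩, ?_, ?_, ?_, ?_, ?_⟩
    · intro d hd
      obtain ⟨h0, h1, h2, h3, h4, h5⟩ := neB d hd
      rw [prest d h0 h1 h2 h3 h4 h5]
      exact hoff.1 d hd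
    · -- positivity
      intro d
      by_cases h0 : d = s
      · rw [h0, ls]; exact tA.px
      by_cases h1 : d = t
      · rw [h1, lt']; exact tA.px
      rw [lr d h0 h1]
      exact lpos d
    · -- symmetry
      intro d
      rw [hι']
      by_cases h0 : d = s
      · rw [h0, ← ht, ls, lt']
      by_cases h1 : d = t
      · rw [h1, hιt, ls, lt']
      have h2 : M.ι d ≠ s := by
        intro h
        apply h1
        rw [ht, ← h, M.ιι]
      have h3 : M.ι d ≠ t := by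
        intro h
        apply h0
        rw [← M.ιι d, h, hιt]
      rw [lr d h0 h1, lr _ h2 h3]
      exact lsym d
    · -- triangle inequalities
      intro d hd
      by_cases h0 : d = s
      · rw [h0, p0, p1, ls, ld2, lt1]; exact tA.hy
      by_cases h1 : d = d2
      · rw [h1, p1, p2, ls, ld2, lt1, add_comm]; exact tA.hz
      by_cases h2 : d = t1
      · rw [h2, p2, p0, ls, ld2, lt1, add_comm]; exact tA.hx
      by_cases h3 : d = t
      · rw [h3, p3, p4, lt', ld1, lt2]; exact tB.hy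
      by_cases h4 : d = t2
      · rw [h4, p4, p5, lt', ld1, lt2, add_comm]; exact tB.hz
      by_cases h5 : d = d1
      · rw [h5, p5, p3, lt', ld1, lt2, add_comm]; exact tB.hx
      obtain ⟨i0, i1, i2, i3, i4, i5⟩ := outR d h0 h5 h1 h3 h2 h4
      obtain ⟨j0, j1, j2, j3, j4, j5⟩ := outR _ i0 i1 i2 i3 i4 i5
      rw [prest d h0 h5 h1 h3 h2 h4, prest _ i0 i1 i2 i3 i4 i5, lr d h0 h3, lr _ i0 i3, lr _ j0 j3]
      exact ltri d hd
    · -- values at 0
      intro d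
      by_cases h0 : d = s
      · rw [h0, es]
        have h1 : M'.f s = M.f t2 := by
          have := hF.fs
          rw [← ht, ← ht1, ← ht2] at this
          exact this
        rw [h1]
        show sh a (-β) (E' 0) = _
        rw [hE0, sh_sh, neg_add_cancel, sh_zero]
        exact hA.e0 t2
      by_cases h1 : d = t
      · rw [h1, et]
        have h2 : M'.f t = M.f d2 := by
          have := hF.fι
          rw [← ht, ← hd1, ← hd2] at this
          exact this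
        rw [h2]
        show sh a (-α) (E' (L - 0)) = _
        rw [sub_zero, hEL, sh_sh, neg_add_cancel, sh_zero]
        exact hA.e0 d2
      rw [er d h0 h1]
      have h2 : M'.f d = M.f d := by
        rw [ht] at h1
        exact (hF.fγ d h0 h1).1
      rw [h2]
      exact hA.e0 d
    · -- inverse edges
      intro d u hu0 hu1
      rw [hι']
      by_cases h0 : d = s
      · subst h0
        rw [← ht, es, et, gs, ls]
        show sh a (α - β) (sh a (-α) (E' (L - u))) = sh a (-β) (E' (L - u))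
        rw [sh_sh]
        congr 1
        ring
      by_cases h1 : d = t
      · subst h1
        have h2 : M'.γ d = β - α := by
          have h3 := M'.γι s
          rw [hι', ← ht, gs] at h3
          rw [h3]
          ring
        rw [hιt, es, et, h2, lt']
        show sh a (β - α) (sh a (-β) (E' u)) = sh a (-α) (E' (L - (L - u)))
        rw [sh_sh, sub_sub_cancel]
        congr 1
        ring
      have h2 : M.ι d ≠ s := by
        intro h
        apply h1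
        rw [ht, ← h, M.ιι]
      have h3 : M.ι d ≠ t := by
        intro h
        apply h0
        rw [← M.ιι d, h, hιt]
      have h4 : M'.γ d = M.γ d := by
        rw [ht] at h1
        exact (hF.fγ d h0 h1).2
      rw [lr d h0 h1] at hu1 ⊢
      rw [er d h0 h1, er _ h2 h3, h4]
      exact hA.eι d u hu0 hu1
    · -- Lipschitz
      intro d u u' hu0 hu1 hu0' hu1' z
      by_cases h0 : d = s
      · rw [h0, ls] at hu1 hu1'
        rw [h0, es]
        exact hlip u u' hu0 hu1 hu0' hu1' _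
      by_cases h1 : d = t
      · rw [h1, lt'] at hu1 hu1'
        rw [h1, et]
        have := hlip (L - u) (L - u') (by linarith) (by linarith) (by linarith) (by linarith)
          ((a ^ (-(-α))) z)
        have h2 : |L - u - (L - u')| = |u - u'| := by
          rw [show L - u - (L - u') = -(u - u') by ring, abs_neg]
        rw [h2] at this
        exact this
      rw [lr d h0 h1] at hu1 hu1'
      rw [er d h0 h1]
      exact hA.elip d u u' hu0 hu1 hu0' hu1' z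
    · -- fillings
      have fS : FilAt X C M' ℓ' e' s := by
        unfold FilAt
        rw [p0, p1, ls, ld2, lt1, es, ed2, et1]
        have h1 := (hFilR V X a ha C _ _ _ _ _ _ hfA).2.1 (-β)
        simp only [sh_sh] at h1
        have h2 : M'.h s = -β + α := by rw [k0]; ring
        have h3 : M'.h s + M'.h d2 = -β + (M.γ s + M.h t) := by
          rw [k0, k1, hα]; linarith
        rw [h3, h2]
        exact h1
      have fT : FilAt X C M' ℓ' e' t := by
        unfold FilAt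
        rw [p3, p4, lt', ld1, lt2, et, ed1, et2]
        have h1 := (hFilR V X a ha C _ _ _ _ _ _ hfB).2.1 (-α)
        simp only [sh_sh] at h1
        have h2 : M'.h t = -α + β := by rw [k3]; ring
        have h3 : M'.h t + M'.h t2 = -α + M.h s := by
          rw [k3, k4, hβ]; linarith
        rw [h3, h2]
        exact h1
      have fd2 : FilAt X C M' ℓ' e' d2 := by
        have := filAt_step hFilR ha M' ℓ' e' s triS.1 (by rw [p0, p1]; exact hsS) fS
        rw [p0] at this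
        exact this
      have ft1 : FilAt X C M' ℓ' e' t1 := by
        have := filAt_step hFilR ha M' ℓ' e' d2 (by rw [p1, p2, p0])
          (by rw [p1, p2]; linarith) fd2
        rw [p1] at this
        exact this
      have ft2 : FilAt X C M' ℓ' e' t2 := by
        have := filAt_step hFilR ha M' ℓ' e' t triT.1 (by rw [p3, p4]; exact hsT) fT
        rw [p3] at this
        exact this
      have fd1 : FilAt X C M' ℓ' e' d1 := by
        have := filAt_step hFilR ha M' ℓ' e' t2 (by rw [p4, p5, p3])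
          (by rw [p4, p5]; linarith) ft2
        rw [p4] at this
        exact this
      intro d hd
      by_cases h0 : d = s
      · rw [h0]; exact fS
      by_cases h1 : d = d2
      · rw [h1]; exact fd2
      by_cases h2 : d = t1
      · rw [h2]; exact ft1
      by_cases h3 : d = t
      · rw [h3]; exact fT
      by_cases h4 : d = t2
      · rw [h4]; exact ft2
      by_cases h5 : d = d1
      · rw [h5]; exact fd1
      obtain ⟨i0, i1, i2, i3, i4, i5⟩ := outR d h0 h5 h1 h3 h2 h4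
      obtain ⟨j0, j1, j2, j3, j4, j5⟩ := outR _ i0 i1 i2 i3 i4 i5
      rw [prest d h0 h5 h1 h3 h2 h4, prest _ i0 i1 i2 i3 i4 i5, lr d h0 h3, lr _ i0 i3, lr _ j0 j3,
        er d h0 h3, er _ i0 i3, er _ j0 j3, krest d h0 h5 h1 h3 h2 h4, krest _ i0 i1 i2 i3 i4 i5]
      exact hA.fil d hd
    · -- curvature
      have main : ∀ d, d ≠ s → d ≠ t → (∀ b, M'.SameV d b → b ∉ B) →
          M'.curv ℓ' B d ≤ 0 := by
        intro d h0 h1 hd
        rw [key d h0 h1]
        apply hA.npc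
        intro b hb hbB
        obtain ⟨i0, -, -, i3, -, -⟩ := neB b hbB
        exact hd b ((svn d b h0 h1 i0 i3).mpr hb) hbB
      have inv : ∀ x y, M'.SameV x y → M'.curv ℓ' B x = M'.curv ℓ' B y := by
        intro x y hxy
        unfold DMap.curv
        congr 1
        apply Finset.sum_congr rfl
        intro z _
        have : M'.SameV x z ↔ M'.SameV y z :=
          ⟨fun h => M'.sameV_trans (M'.sameV_symm hxy) h, fun h => M'.sameV_trans hxy h⟩
        simp only [this]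
      intro d hd
      by_cases h0 : d = s
      · subst h0
        rw [inv d t2 sv0]
        exact main t2 t2_s t_t2.symm (fun b hb => hd b (M'.sameV_trans sv0 hb))
      by_cases h1 : d = t
      · subst h1
        rw [inv d d2 sv1]
        exact main d2 s_d2.symm hne2.symm (fun b hb => hd b (M'.sameV_trans sv1 hb))
      exact main d h0 h1 hd
  · intro d h0 h1
    rw [← ht] at h1
    exact ⟨lr d h0 h1, key d h0 h1⟩
  · intro d h0 h1 h2 h3 h4 h5
    rw [← hd1] at h1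
    rw [← hd1, ← hd2] at h2
    rw [← ht] at h3
    rw [← ht, ← ht1] at h4
    rw [← ht, ← ht1, ← ht2] at h5
    exact thr d h0 h1 h2 h3 h4 h5
  · rw [← ht, ← ht1]; exact A1
  · rw [← ht, ← hd1]; exact A2
  · rw [← ht, ← hd1, ← hd2]; exact A3
  · rw [← ht, ← ht1, ← ht2]; exact A4

theorem flipM (hFlipL : FlipLStatement) (hFlipG : FlipGStatement) (hFilR : FilRStatement)
    (_hAng : AngStatement) : FlipMStatement := by
  intro V X a C ha hC 𝒜 s hs hιs h1 h2 h3 h4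
  exact flipCore hFlipL hFlipG hFilR V 𝒜.D X a C ha hC 𝒜.M 𝒜.P 𝒜.Q 𝒜.ε 𝒜.ℓ 𝒜.e 𝒜.ok s hs hιs
    h1 h2 h3 h4

end MSG.H16
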