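import Pool.Agent.Lib.MP_acafa7_al.MS.Iface3

/-! Module G1: abelian subgroups (11.1). -/

namespace MSG.H16

open Classical

/-- a torsion quotient of an abelian subgroup with bounded finite subgroups is finite -/
lemma finQuot {Q : Type} [CommGroup Q] (N : ℕ) (ht : ∀ x : Q, ∃ n : ℕ, 0 < n ∧ x ^ n = 1)
    (hN : ∀ F : Subgroup Q, Finite F → Nat.card F ≤ N) : Finite Q := by
  by_contra hinf
  have hinf' : Infinite Q := not_finite_iff_infinite.mp hinf
  obtain ⟨s, hs⟩ := Infinite.exists_subset_card_eq Q (N + 1)
  have htor : Monoid.IsTorsion (Subgroup.closure (s : Set Q)) := by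
    intro x
    obtain ⟨n, hn, hx⟩ := ht x.1
    refine isOfFinOrder_iff_pow_eq_one.mpr ⟨n, hn, ?_⟩
    apply Subtype.ext
    simpa using hx
  have hfg : Group.FG (Subgroup.closure (s : Set Q)) := inferInstance
  have hfin : Finite (Subgroup.closure (s : Set Q)) := CommGroup.finite_of_fg_torsion _ htor
  have h1 := hN _ hfin
  have h2 : N + 1 ≤ Nat.card (Subgroup.closure (s : Set Q)) := by
    rw [← hs]
    have hinj : Function.Injective
        (fun x : s => (⟨x.1, Subgroup.subset_closure (by exact_mod_cast x.2)⟩ :
          Subgroup.closure (s : Set Q))) := by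
      intro x y hxy
      apply Subtype.ext
      exact congrArg (fun z => z.1) hxy
    have := Nat.card_le_card_of_injective _ hinj
    simpa using this
  omega

theorem g1 : G1Statement := by
  intro Γ _ hPN hPB A hA ⟨a, haA, ha⟩
  by_cases hb : ∃ b ∈ A, Ind a b
  · obtain ⟨b, hbA, hab⟩ := hb
    right
    have hle : Subgroup.closure {a, b} ≤ A := by
      rw [Subgroup.closure_le]
      intro x hx
      rcases hx with rfl | rfl
      · exact haA
      · exact hbA
    refine ⟨a, haA, b, hbA, hab, hPN a b hab A hle ?_⟩
    intro g hg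
    refine ⟨1, le_refl 1, ?_, ?_⟩
    · have : g⁻¹ * a ^ 1 * g = a := by
        rw [pow_one, mul_assoc, hA a haA g hg, ← mul_assoc, inv_mul_cancel, one_mul]
      rw [this]
      exact Subgroup.subset_closure (by simp)
    · have : g⁻¹ * b ^ 1 * g = b := by
        rw [pow_one, mul_assoc, hA b hbA g hg, ← mul_assoc, inv_mul_cancel, one_mul]
      rw [this]
      exact Subgroup.subset_closure (by simp)
  · left
    refine ⟨a, haA, ha, ?_⟩
    obtain ⟨N, hN⟩ := hPB a ha
    letI : CommGroup A := { (inferInstance : Group A) with
      mul_comm := fun x y => Subtype.ext (hA x.1 x.2 y.1 y.2) }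
    set Z : Subgroup A := (Subgroup.zpowers a).subgroupOf A with hZ
    have hcard : ∀ F : Subgroup (A ⧸ Z), (Subgroup.zpowers a).relIndex
        ((F.comap (QuotientGroup.mk' Z)).map A.subtype) = Nat.card F := by
      intro F
      rw [← Subgroup.relIndex_comap]
      have h0 : (Subgroup.zpowers a).comap A.subtype
          = (⊥ : Subgroup (A ⧸ Z)).comap (QuotientGroup.mk' Z) := by
        rw [MonoidHom.comap_bot, QuotientGroup.ker_mk']
        rfl
      rw [h0, Subgroup.relIndex_comap, Subgroup.map_comap_eq_self_of_surjective
        (QuotientGroup.mk'_surjective Z), Subgroup.relIndex_bot_left]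
    have hfin : Finite (A ⧸ Z) := by
      refine finQuot N ?_ ?_
      · intro x
        obtain ⟨y, rfl⟩ := QuotientGroup.mk_surjective x
        have hy : ¬ Ind a y.1 := fun h => hb ⟨y.1, y.2, h⟩
        have hcomm : a * y.1 = y.1 * a := hA a haA y.1 y.2
        have : ∃ i j : ℤ, a ^ i * y.1 ^ j = 1 ∧ j ≠ 0 := by
          by_contra hcon
          push Not at hcon
          apply hy
          refine ⟨hcomm, ?_⟩
          intro i j hij
          have hj := hcon i j hij
          refine ⟨?_, hj⟩
          subst hj
          apply ha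
          simpa using hij
        obtain ⟨i, j, hij, hj⟩ := this
        refine ⟨j.natAbs, Int.natAbs_pos.mpr hj, ?_⟩
        have hmem : (y ^ j : A) ∈ Z := by
          rw [hZ, Subgroup.mem_subgroupOf]
          refine ⟨-i, ?_⟩
          have : (y.1 ^ j) = (a ^ i)⁻¹ := eq_inv_of_mul_eq_one_right hij
          simp only [SubgroupClass.coe_zpow]
          rw [this, zpow_neg]
        have hmem' : (y ^ j.natAbs : A) ∈ Z := by
          rcases Int.natAbs_eq j with h | h
          · rw [h] at hmem
            rwa [zpow_natCast] at hmem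
          · rw [h, zpow_neg, zpow_natCast] at hmem
            exact (Subgroup.inv_mem_iff Z).mp hmem
        rw [← QuotientGroup.mk_pow]
        exact (QuotientGroup.eq_one_iff _).mpr hmem'
      · intro F hF
        rw [← hcard F]
        apply hN
        · refine Subgroup.mem_map.mpr ⟨⟨a, haA⟩, ?_, rfl⟩
          rw [Subgroup.mem_comap]
          have : (QuotientGroup.mk' Z) ⟨a, haA⟩ = 1 := by
            rw [QuotientGroup.mk'_apply, QuotientGroup.eq_one_iff]
            rw [hZ, Subgroup.mem_subgroupOf]
            exact Subgroup.mem_zpowers a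
          rw [this]
          exact F.one_mem
        · rintro h ⟨y, -, rfl⟩
          exact hA _ y.2 a haA
        · rw [hcard F]
          exact Nat.card_pos.ne'
    have : (Subgroup.zpowers a).relIndex A = Nat.card (A ⧸ Z) := rfl
    rw [this]
    exact Nat.card_pos.ne'

end MSG.H16
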