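import Pool.Agent.Lib.MP_acafa7_al.MS.Iface2

/-! Module LoopC: connection in case (4d) of 9.5. -/

namespace MSG.H16

open Classical

namespace LC

variable {V D : Type} {a : Equiv.Perm V}

lemma sh_sh (n m : ℤ) (u : V → ℝ) : sh a n (sh a m u) = sh a (n + m) u := by
  funext z
  simp only [sh]
  rw [← Equiv.Perm.mul_apply, ← zpow_add]
  have : -m + -n = -(n + m) := by ring
  rw [this]

lemma sh_zero (u : V → ℝ) : sh a 0 u = u := by
  funext z
  simp [sh]

lemma sh_bd (n : ℤ) {u v : V → ℝ} {b : ℝ} (h : ∀ z, |u z - v z| ≤ b) (z : V) :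
    |sh a n u z - sh a n v z| ≤ b := h _

/-- crossing a triangle at a level -/
lemma levelStep (hLev : LevelGStatement) {X : Cx V} {C : ℝ} [Fintype D] {M : LMap V D a}
    {P Q : List D} {ε : ℤ} {ℓ : D → ℝ} {e : D → ℝ → V → ℝ} (hA : IsMA X C M P Q ε ℓ e) (d : D)
    (hd : d ∉ annB P Q) (τ : ℝ) (h0 : 0 ≤ τ) (h1 : τ ≤ 1) (z : V) :
    |e d (τ * ℓ d) z - sh a (M.γ (M.φ (M.φ d)) - M.h (M.φ (M.φ d)))
      (e (M.ι (M.φ (M.φ d))) (τ * ℓ (M.φ (M.φ d)))) z| ≤ C * (τ * ℓ (M.φ d)) := by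
  have hoff := hA.ann.off
  obtain ⟨lpos, lsym, ltri⟩ := hA.lenok
  have hT := hoff.2 d hd
  have cl : ∀ d, d ∉ annB P Q → M.φ d ∉ annB P Q := by
    intro d hd h
    apply hd
    have h1 := hoff.1 _ (hoff.1 _ h)
    rw [(hoff.2 d hd).1.1] at h1
    exact h1
  have hd1 := cl d hd
  have hd2 := cl _ hd1
  have q1 := ltri d hd
  have q2 := ltri _ hd1
  have q3 := ltri _ hd2
  rw [hT.1.1] at q2 q3
  have hTr : Tr (ℓ d) (ℓ (M.φ d)) (ℓ (M.φ (M.φ d))) :=
    ⟨lpos _, lpos _, lpos _, by linarith, by linarith, by linarith⟩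
  have h2 := hLev V X C _ _ _ _ _ _ hTr (hA.fil d hd) τ h0 h1 z
  have h3 := hA.eι (M.φ (M.φ d)) (τ * ℓ (M.φ (M.φ d)))
    (mul_nonneg h0 (lpos _).le) (by nlinarith [lpos (M.φ (M.φ d))])
  have h4 : ℓ (M.φ (M.φ d)) - τ * ℓ (M.φ (M.φ d)) = (1 - τ) * ℓ (M.φ (M.φ d)) := by ring
  rw [h4] at h3
  rw [← h3, sh_sh] at h2
  have h5 : M.h d + M.h (M.φ d) + M.γ (M.φ (M.φ d)) =
      M.γ (M.φ (M.φ d)) - M.h (M.φ (M.φ d)) := by
    have := hT.2
    linarith
  rw [h5] at h2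
  exact h2

/-- values of the edge function of a triangle dart are near -/
lemma near_edge {X : Cx V} {C : ℝ} [Fintype D] {M : LMap V D a}
    {P Q : List D} {ε : ℤ} {ℓ : D → ℝ} {e : D → ℝ → V → ℝ} (hA : IsMA X C M P Q ε ℓ e) (d : D)
    (hd : d ∉ annB P Q) (u : ℝ) (h0 : 0 ≤ u) (h1 : u ≤ ℓ d) : Near X (e d u) := by
  obtain ⟨A, B, Z, F, hAB, -, -, -, hnear, hs1, -, -⟩ := hA.fil d hd
  rw [← hs1 u h0 h1]
  apply hnear
  have hpos : 0 < ℓ d := hA.lenok.1 d
  have hmem : seg A B u ∈ segment ℝ A B := by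
    rw [segment_eq_image_lineMap]
    refine ⟨u / dist A B, ⟨by rw [hAB]; positivity, ?_⟩, ?_⟩
    · rw [hAB, div_le_one hpos]
      exact h1
    · rw [AffineMap.lineMap_apply, seg, vsub_eq_sub, vadd_eq_add, add_comm]
      simp
  have hsub : segment ℝ A B ⊆ convexHull ℝ {A, B, Z} := by
    apply segment_subset_convexHull
    · simp
    · simp
  exact hsub hmem

end LC

open LC in
theorem loopC (hLevP : LevPStatement) (hLevelG : LevelGStatement) (_hFilR : FilRStatement)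
    (hCYL : CYLStatement) : LoopCStatement := by
  intro V X a C K K' hyp 𝒜 o k s hLe hM hF hoo hk hsum n
  obtain ⟨D, _, M, P, Q, ε, ℓ, e, hA⟩ := 𝒜
  simp only at *
  change M.φ o = o at hoo
  change CY X a K' (M.f o) ((a ^ n) (M.f (M.φ (s 1))))
  have hLe1 : (P.map ℓ).sum ≤ K := hLe.1
  have hoP : o ∈ P := hM.1
  have Fz : M.φ (M.ι (s 0)) = o := hF.zero
  have Fl : s k = o := hF.last
  have Fn : ∀ j, j < k → s (j + 1) = M.ι (M.φ (M.φ (s j))) := hF.next
  have Ft : ∀ j, j < k → s j ∉ annB P Q := hF.tri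
  change ∑ j ∈ Finset.range (k - 2), ℓ (M.φ (s (j + 1))) ≤ K at hsum
  have hann := hA.ann
  have hoff := hann.off
  obtain ⟨lpos, lsym, ltri⟩ := hA.lenok
  have ιι : ∀ d, M.ι (M.ι d) = d := M.ιι
  have cl : ∀ d, d ∉ annB P Q → M.φ d ∉ annB P Q := by
    intro d hd h
    apply hd
    have h1 := hoff.1 _ (hoff.1 _ h)
    rw [(hoff.2 d hd).1.1] at h1
    exact h1
  -- the face of `o`
  have hP1 : P = [o] := by
    obtain ⟨i, hi, hio⟩ := List.getElem_of_mem hoP
    have h1 : (P.map M.φ)[i]'(by simpa using hi) = o := by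
      rw [List.getElem_map, hio, hoo]
    have h2 : (P.map M.φ)[i]'(by simpa using hi) = (P.rotate 1)[i]'(by simpa using hi) := by
      congr 1
      exact hann.faceP.2.2
    rw [h1, List.getElem_rotate] at h2
    have h3 : P[i]'hi = P[(i + 1) % P.length]'(Nat.mod_lt _ (by omega)) := by rw [hio]; exact h2
    have h4 := (List.Nodup.getElem_inj_iff hann.faceP.2.1).mp h3
    have h5 : P.length = 1 := by
      by_cases h : i + 1 < P.length
      · rw [Nat.mod_eq_of_lt h] at h4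
        omega
      · have : i + 1 = P.length := by omega
        rw [this, Nat.mod_self] at h4
        omega
    obtain ⟨x, hx⟩ := List.length_eq_one_iff.mp h5
    have hox : o ∈ [x] := hx ▸ hoP
    have hxo : (o : D) = x := List.mem_singleton.mp hox
    exact hx.trans (congrArg (fun y : D => [y]) hxo.symm)
  have hho : M.h o = 1 ∨ M.h o = -1 := by
    have h1 := hann.holP
    rw [hP1] at h1
    simp only [LMap.hol, List.map_cons, List.map_nil, List.sum_cons, List.sum_nil, add_zero] at h1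
    rw [h1]
    exact hann.eps
  have hℓo : ℓ o ≤ K := by
    rw [hP1] at hLe1
    simpa using hLe1
  -- the spokes
  have hιs0 : M.ι (s 0) = o := by
    apply M.φ.injective
    rw [Fz, hoo]
  have hs0 : s 0 = M.ι o := by rw [← hιs0, ιι]
  have hb0 : s 0 ∉ annB P Q := Ft 0 (by omega)
  have hlast : M.φ (s 0) = s (k - 1) := by
    have h1 := Fn (k - 1) (by omega)
    rw [show k - 1 + 1 = k by omega, Fl] at h1
    have h2 : M.φ (M.φ (s (k - 1))) = s 0 := by
      rw [hs0]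
      apply M.ι.injective
      rw [← h1, ιι]
    rw [← h2]
    exact (hoff.2 _ (Ft (k - 1) (by omega))).1.1
  have hs1 : s 1 = M.ι (M.φ (M.φ (s 0))) := Fn 0 (by omega)
  have hιs1 : M.ι (s 1) = M.φ (M.φ (s 0)) := by rw [hs1, ιι]
  have hb1 : M.ι (s 1) ∉ annB P Q := by rw [hιs1]; exact cl _ (cl _ hb0)
  have hT0 := hoff.2 _ hb0
  have hφ1 : M.φ (M.ι (s 1)) = s 0 := by rw [hιs1]; exact hT0.1.1
  have hφ2 : M.φ (M.φ (M.ι (s 1))) = s (k - 1) := by rw [hφ1, hlast]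
  have hℓs0 : ℓ (s 0) = ℓ o := by rw [hs0]; exact lsym o
  -- tgt in a convenient form
  have tgt : ∀ d, M.f (M.ι d) = (a ^ (M.h d - M.γ d)) (M.f (M.φ d)) := by
    intro d
    have h1 := M.tgt d
    have h2 : (a ^ (M.h d - M.γ d)) (M.f (M.φ d)) =
        (a ^ (-M.γ d)) ((a ^ M.h d) (M.f (M.φ d))) := by
      rw [← Equiv.Perm.mul_apply, ← zpow_add]
      congr 2
      ring
    rw [h2, ← h1, ← Equiv.Perm.mul_apply, ← zpow_add, neg_add_cancel, zpow_zero]
    rfl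
  -- around the fan
  have fan : ∀ i, i + 2 ≤ k → ∃ S : ℤ, M.f (s 1) = (a ^ S) (M.f (s (i + 1))) ∧
      ∀ τ, 0 ≤ τ → τ ≤ 1 → ∀ z, |e (s 1) (τ * ℓ (s 1)) z -
        sh a S (e (s (i + 1)) (τ * ℓ (s (i + 1)))) z| ≤
        C * (τ * ∑ j ∈ Finset.range i, ℓ (M.φ (s (j + 1)))) := by
    intro i
    induction i with
    | zero =>
      intro _
      refine ⟨0, by simp, ?_⟩
      intro τ _ _ z
      simp [sh_zero]
    | succ i ih =>
      intro hi
      obtain ⟨S, hS1, hS2⟩ := ih (by omega)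
      set d := s (i + 1) with hd
      have hdB : d ∉ annB P Q := Ft (i + 1) (by omega)
      have hn : s (i + 1 + 1) = M.ι (M.φ (M.φ d)) := Fn (i + 1) (by omega)
      refine ⟨S + (M.γ (M.φ (M.φ d)) - M.h (M.φ (M.φ d))), ?_, ?_⟩
      · have h1 := tgt (M.φ (M.φ d))
        rw [(hoff.2 d hdB).1.1] at h1
        rw [hn, h1, ← Equiv.Perm.mul_apply, ← zpow_add, hS1]
        congr 2
        ring
      · intro τ h0 h1 z
        have h2 := levelStep hLevelG hA d hdB τ h0 h1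
        have h3 := sh_bd (a := a) S h2 z
        have h4 := hS2 τ h0 h1 z
        rw [sh_sh] at h3
        have h5 : ℓ (s (i + 1 + 1)) = ℓ (M.φ (M.φ d)) := by rw [hn]; exact lsym _
        rw [h5, hn, Finset.sum_range_succ]
        calc _ ≤ _ := abs_sub_le _ (sh a S (e d (τ * ℓ d)) z) _
          _ ≤ _ := add_le_add h4 h3
          _ = _ := by rw [← hd]; ring
  obtain ⟨S, hS1, hS2⟩ := fan (k - 2) (by omega)
  rw [show k - 2 + 1 = k - 1 by omega] at hS1 hS2
  -- through the triangle of `ι o`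
  obtain ⟨S', hS'⟩ : ∃ S', S' = M.γ (s 1) + (M.h (M.ι (s 1)) + M.h (s 0)) := ⟨_, rfl⟩
  have hlab : M.f (s 1) = (a ^ (S' + M.h o)) (M.f (s (k - 1))) := by
    have h1 := tgt (M.ι (s 1))
    rw [ιι, hφ1, M.γι] at h1
    have h2 := tgt o
    rw [← hs0, hoo] at h2
    have h3 := tgt (s 0)
    rw [hιs0, hlast] at h3
    have h4 : M.γ (s 0) = - M.γ o := by rw [hs0]; exact M.γι o
    rw [h1, h2, h3, ← Equiv.Perm.mul_apply, ← zpow_add, ← Equiv.Perm.mul_apply, ← zpow_add, h4, hS']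
    congr 2
    ring
  have hSS : S = S' + M.h o := by
    have h1 : (a ^ (S - (S' + M.h o))) (M.f (s (k - 1))) = M.f (s (k - 1)) := by
      have h2 : (a ^ S) (M.f (s (k - 1))) = (a ^ (S' + M.h o)) (M.f (s (k - 1))) := by
        rw [← hS1, hlab]
      have h3 : (a ^ (S - (S' + M.h o))) (M.f (s (k - 1))) =
          (a ^ (-(S' + M.h o))) ((a ^ S) (M.f (s (k - 1)))) := by
        rw [← Equiv.Perm.mul_apply, ← zpow_add]
        congr 2
        ring
      rw [h3, h2, ← Equiv.Perm.mul_apply, ← zpow_add, neg_add_cancel, zpow_zero]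
      rfl
    have := hyp.aut.free _ _ h1
    linarith
  have through : ∀ τ, 0 ≤ τ → τ ≤ 1 → ∀ z, |e (s 1) (τ * ℓ (s 1)) z -
      sh a S' (e (s (k - 1)) (τ * ℓ (s (k - 1)))) z| ≤ C * ((1 - τ) * ℓ o) := by
    intro τ h0 h1 z
    have hTr : Tr (ℓ (M.ι (s 1))) (ℓ (M.φ (M.ι (s 1)))) (ℓ (M.φ (M.φ (M.ι (s 1))))) := by
      have q1 := ltri _ hb1
      have q2 := ltri _ (cl _ hb1)
      have q3 := ltri _ (cl _ (cl _ hb1))
      have hT := hoff.2 _ hb1
      rw [hT.1.1] at q2 q3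
      exact ⟨lpos _, lpos _, lpos _, by linarith, by linarith, by linarith⟩
    have h2 := hLevelG V X C _ _ _ _ _ _ hTr (hA.fil _ hb1) (1 - τ) (by linarith) (by linarith)
    simp only [hφ1, sub_sub_cancel, hlast] at h2
    have h3 := sh_bd (a := a) (M.γ (s 1)) h2 z
    have h4 := hA.eι (s 1) ((1 - τ) * ℓ (s 1)) (mul_nonneg (by linarith) (lpos _).le)
      (by nlinarith [lpos (s 1)])
    have h5 : ℓ (s 1) - (1 - τ) * ℓ (s 1) = τ * ℓ (s 1) := by ring
    have h6 : ℓ (M.ι (s 1)) = ℓ (s 1) := lsym _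
    rw [h5] at h4
    rw [h6, h4, sh_sh, ← hS', hℓs0] at h3
    exact h3
  -- displacement
  have disp : ∀ u, 0 ≤ u → u ≤ ℓ (s 1) → ∀ z,
      |e (s 1) u z - sh a (-M.h o) (e (s 1) u) z| ≤ C * K := by
    intro u hu0 hu1 z
    have hl := lpos (s 1)
    obtain ⟨τ, hτ⟩ : ∃ τ, τ = u / ℓ (s 1) := ⟨_, rfl⟩
    have hτ0 : 0 ≤ τ := by rw [hτ]; positivity
    have hτ1 : τ ≤ 1 := by rw [hτ, div_le_one hl]; exact hu1
    have hu : u = τ * ℓ (s 1) := by rw [hτ]; field_simp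
    rw [hu]
    have h1 := through τ hτ0 hτ1 z
    have h2 := sh_bd (a := a) (-M.h o) (hS2 τ hτ0 hτ1) z
    rw [sh_sh, hSS, show -M.h o + (S' + M.h o) = S' by ring] at h2
    have h3 : τ * ∑ j ∈ Finset.range (k - 2), ℓ (M.φ (s (j + 1))) + (1 - τ) * ℓ o ≤ K := by
      have e1 := mul_le_mul_of_nonneg_left hsum hτ0
      have e2 := mul_le_mul_of_nonneg_left hℓo (by linarith : (0 : ℝ) ≤ 1 - τ)
      linarith
    have h4 : |sh a S' (e (s (k - 1)) (τ * ℓ (s (k - 1)))) z -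
        sh a (-M.h o) (e (s 1) (τ * ℓ (s 1))) z| ≤
        C * (τ * ∑ j ∈ Finset.range (k - 2), ℓ (M.φ (s (j + 1)))) := by
      rw [abs_sub_comm]
      exact h2
    calc _ ≤ _ := abs_sub_le _ (sh a S' (e (s (k - 1)) (τ * ℓ (s (k - 1)))) z) _
      _ ≤ _ := add_le_add h1 h4
      _ = C * (τ * ∑ j ∈ Finset.range (k - 2), ℓ (M.φ (s (j + 1))) + (1 - τ) * ℓ o) := by ring
      _ ≤ _ := mul_le_mul_of_nonneg_left h3 hyp.C0.le
  have hb1' : s 1 ∉ annB P Q := Ft 1 (by omega)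
  have hm : -M.h o = 1 ∨ -M.h o = -1 := by
    rcases hho with h | h
    · right; rw [h]
    · left; rw [h]; rfl
  have hend : e (s 1) (ℓ (s 1)) = kap X (M.t (s 1)) := by
    have h1 := hA.eι (s 1) 0 le_rfl (lpos _).le
    rw [sub_zero, hA.e0] at h1
    rw [← h1]
    funext z
    simp only [sh, kap, LMap.t]
    -- dist (f (ι s1)) (a^(-γ) z) = dist (a^γ f) z
    have inv : ∀ (n : ℤ) (x y : V), X.G.dist ((a ^ n) x) ((a ^ n) y) = X.G.dist x y := by
      have h1 : ∀ x y : V, X.G.dist (a x) (a y) = X.G.dist x y := by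
        have hmap : ∀ (b : Equiv.Perm V), (∀ x y, X.G.Adj (b x) (b y) ↔ X.G.Adj x y) →
            ∀ x y, X.G.dist (b x) (b y) ≤ X.G.dist x y := by
          intro b hb x y
          obtain ⟨w, hw⟩ := hyp.conn.exists_walk_length_eq_dist x y
          let φ : X.G →g X.G := ⟨b, fun {x y} h => (hb x y).mpr h⟩
          have := SimpleGraph.dist_le (w.map φ)
          rw [SimpleGraph.Walk.length_map, hw] at this
          exact this
        intro x y
        apply le_antisymm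
        · exact hmap a hyp.aut.adj x y
        · have h2 : ∀ x y, X.G.Adj (a⁻¹ x) (a⁻¹ y) ↔ X.G.Adj x y := by
            intro x y
            rw [← hyp.aut.adj (a⁻¹ x) (a⁻¹ y)]
            simp
          have h3 := hmap a⁻¹ h2 (a x) (a y)
          simpa using h3
      intro n x y
      induction n using Int.induction_on generalizing x y with
      | zero => simp
      | succ i ih => rw [zpow_add_one, Equiv.Perm.mul_apply, Equiv.Perm.mul_apply, ih, h1]
      | pred i ih =>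
        have h2 : ∀ x y : V, X.G.dist (a⁻¹ x) (a⁻¹ y) = X.G.dist x y := by
          intro x y
          rw [← h1 (a⁻¹ x) (a⁻¹ y)]
          simp
        rw [zpow_sub_one, Equiv.Perm.mul_apply, Equiv.Perm.mul_apply, ih, h2]
    have h2 := inv (M.γ (s 1)) (M.f (M.ι (s 1))) ((a ^ (-M.γ (s 1))) z)
    rw [← h2]
    congr 2
    rw [← Equiv.Perm.mul_apply, ← zpow_add, add_neg_cancel, zpow_zero]
    rfl
  have hCY := hLevP V X a C K K' hyp (ℓ (s 1)) (e (s 1)) (M.f (s 1)) (M.t (s 1)) (-M.h o)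
    (lpos _).le hm (hA.e0 _) hend (fun u h0 h1 => near_edge hA _ hb1' u h0 h1)
    (fun u u' h0 h1 h0' h1' z => hA.elip _ u u' h0 h1 h0' h1' z) disp
  -- displacement of the end point
  have hCK : 0 ≤ C * K := mul_nonneg hyp.C0.le hyp.K0
  have hdy : X.G.dist (M.t (s 1)) (a (M.t (s 1))) ≤ ⌊C * K⌋₊ := by
    apply Nat.le_floor
    have h1 := disp (ℓ (s 1)) (lpos _).le le_rfl
    rw [hend] at h1
    rcases hm with h | h
    · have h2 := h1 (a (M.t (s 1)))
      rw [h] at h2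
      simp only [sh, kap] at h2
      have h3 : (a ^ (-1 : ℤ)) (a (M.t (s 1))) = M.t (s 1) := by simp
      rw [h3, SimpleGraph.dist_self] at h2
      simpa using h2
    · have h2 := h1 (M.t (s 1))
      rw [h] at h2
      simp only [sh, kap] at h2
      have h3 : (a ^ (-(-1) : ℤ)) (M.t (s 1)) = a (M.t (s 1)) := by simp
      rw [h3, SimpleGraph.dist_self] at h2
      simpa using h2
  have h3L : 3 * ⌊C * K⌋₊ ≤ K' := by
    have h1 := Nat.floor_le hCK
    have h2 := hyp.K'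
    have h3 : ((3 * ⌊C * K⌋₊ : ℕ) : ℝ) ≤ (K' : ℝ) := by
      push_cast
      linarith
    exact_mod_cast h3
  obtain ⟨-, ctrans, cshift, -, cpow, -⟩ := hCYL V X a hyp.aut hyp.conn K'
  -- labels
  obtain ⟨i, hi⟩ : ∃ i : ℤ, M.f o = (a ^ i) (M.f (s 1)) := by
    have h1 := tgt (s 0)
    rw [hιs0, hlast] at h1
    refine ⟨M.h (s 0) - M.γ (s 0) + (-S), ?_⟩
    have h2 : M.f (s (k - 1)) = (a ^ (-S)) (M.f (s 1)) := by
      rw [hS1, ← Equiv.Perm.mul_apply, ← zpow_add, neg_add_cancel, zpow_zero]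
      rfl
    rw [h1, h2, ← Equiv.Perm.mul_apply, ← zpow_add]
  have hj : M.f (M.φ (s 1)) = (a ^ (-M.h (s 1))) (M.t (s 1)) := by
    have h1 : M.t (s 1) = (a ^ M.h (s 1)) (M.f (M.φ (s 1))) := M.tgt (s 1)
    rw [h1, ← Equiv.Perm.mul_apply, ← zpow_add, neg_add_cancel, zpow_zero]
    rfl
  rw [hi, hj]
  have c1 := cshift _ _ i hCY
  have c2 := cshift _ _ i (cpow (M.t (s 1)) (n - M.h (s 1) - i) _ hdy h3L)
  have c3 := ctrans _ _ _ c1 c2
  have h4 : (a ^ i) ((a ^ (n - M.h (s 1) - i)) (M.t (s 1))) =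
      (a ^ n) ((a ^ (-M.h (s 1))) (M.t (s 1))) := by
    rw [← Equiv.Perm.mul_apply, ← zpow_add, ← Equiv.Perm.mul_apply, ← zpow_add]
    congr 2
    ring
  rw [h4] at c3
  exact c3

end MSG.H16
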