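import Pool.Agent.Lib.MP_acafa7_al.MS.Iface1

/-! Module EUL (helper16): the Euler inequality by linear algebra over `ZMod 2`. -/

namespace MSG.H16

open Module

variable {D : Type} [Fintype D]

/-- functions constant on the classes of a setoid -/
noncomputable def cst (s : Setoid D) : Submodule (ZMod 2) (D → ZMod 2) :=
  LinearMap.range (LinearMap.funLeft (ZMod 2) (ZMod 2) (Quotient.mk s))

theorem finrank_cst (s : Setoid D) : finrank (ZMod 2) (cst s) = Nat.card (Quotient s) := by
  classical
  unfold cst
  rw [LinearMap.finrank_range_of_inj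
    (LinearMap.funLeft_injective_of_surjective _ _ _ Quotient.mk_surjective)]
  have : Fintype (Quotient s) := Fintype.ofFinite _
  rw [Module.finrank_fintype_fun_eq_card, Nat.card_eq_fintype_card]

omit [Fintype D] in
theorem mem_cst {s : Setoid D} {h : D → ZMod 2} (H : ∀ a b, s a b → h a = h b) : h ∈ cst s := by
  refine ⟨Quotient.lift h H, ?_⟩
  ext d
  rfl

omit [Fintype D] in
theorem inv_sameCycle {φ : Equiv.Perm D} {h : D → ZMod 2} (H : ∀ d, h (φ d) = h d) {a b : D}
    (hab : φ.SameCycle a b) : h a = h b := by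
  have hn : ∀ (n : ℕ) (x : D), h ((φ ^ n) x) = h x := by
    intro n
    induction n with
    | zero => intro x; simp
    | succ n ih =>
      intro x
      rw [pow_succ', Equiv.Perm.mul_apply, H, ih]
  obtain ⟨i, hi⟩ := hab
  cases i with
  | ofNat n =>
    rw [← hi]
    simpa using (hn n a).symm
  | negSucc n =>
    have h1 : a = (φ ^ (n + 1)) b := by
      rw [← hi, zpow_negSucc]
      simp
    rw [h1, hn]

/-- `c ↦ c ∘ ψ + c` -/
def dl (ψ : D → D) : (D → ZMod 2) →ₗ[ZMod 2] (D → ZMod 2) where
  toFun c := fun d => c (ψ d) + c d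
  map_add' x y := by ext d; simp only [Pi.add_apply]; ring
  map_smul' r x := by ext d; simp only [Pi.smul_apply, smul_eq_mul, RingHom.id_apply]; ring

/-- total sum -/
def sm : (D → ZMod 2) →ₗ[ZMod 2] ZMod 2 where
  toFun c := ∑ d, c d
  map_add' x y := by simp [Finset.sum_add_distrib]
  map_smul' r x := by simp [Finset.mul_sum]

theorem z2 (x : ZMod 2) : x + x = 0 := CharTwo.add_self_eq_zero x

theorem z2_eq {x y : ZMod 2} (h : x + y = 0) : x = y := by
  have := z2 y
  calc x = x + (y + y) := by rw [this, add_zero]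
    _ = (x + y) + y := by ring
    _ = y := by rw [h, zero_add]

/-- a function which is invariant under a fixed point free involution has total sum 0 -/
theorem sm_inv (M : DMap D) {c : D → ZMod 2} (H : ∀ d, c (M.ι d) = c d) : sm c = 0 := by
  classical
  change ∑ d, c d = 0
  refine Finset.sum_involution (fun d _ => M.ι d) ?_ ?_ ?_ ?_
  · intro d _
    rw [H]; exact z2 _
  · intro d _ _
    exact M.ne d
  · intro d _
    exact Finset.mem_univ _
  · intro d _
    exact M.ιι d

theorem finrank_ker_sm [Nonempty D] :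
    finrank (ZMod 2) (LinearMap.ker (sm (D := D))) + 1 = Fintype.card D := by
  classical
  have h := LinearMap.finrank_range_add_finrank_ker (sm (D := D))
  have hr : LinearMap.range (sm (D := D)) = ⊤ := by
    rw [LinearMap.range_eq_top]
    intro y
    obtain ⟨d₀⟩ := (inferInstance : Nonempty D)
    refine ⟨fun d => if d = d₀ then y else 0, ?_⟩
    change ∑ d, (if d = d₀ then y else 0) = y
    simp
  rw [hr, finrank_top, Module.finrank_self, Module.finrank_fintype_fun_eq_card] at h
  omega

theorem eul : EulStatement := by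
  classical
  intro D _ M hM hne
  have := hne
  set τ := dl (M.ι : D → D) with hτ
  set δ := dl (M.φ : D → D) with hδ
  set Z := LinearMap.ker (sm (D := D)) with hZ
  have hker : LinearMap.ker τ ≤ Z := by
    intro c hc
    rw [LinearMap.mem_ker] at hc ⊢
    refine sm_inv M fun d => ?_
    exact z2_eq (congrFun hc d)
  -- card D ≤ 2 dim ker τ
  have h1 : Fintype.card D ≤ 2 * finrank (ZMod 2) (LinearMap.ker τ) := by
    have h := LinearMap.finrank_range_add_finrank_ker τ
    rw [Module.finrank_fintype_fun_eq_card] at h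
    have h2 : LinearMap.range τ ≤ LinearMap.ker τ := by
      rintro _ ⟨c, rfl⟩
      rw [LinearMap.mem_ker]
      ext d
      change (c (M.ι (M.ι d)) + c (M.ι d)) + (c (M.ι d) + c d) = 0
      rw [M.ιι]
      calc (c d + c (M.ι d)) + (c (M.ι d) + c d)
          = (c d + c d) + (c (M.ι d) + c (M.ι d)) := by ring
        _ = 0 := by rw [z2, z2, add_zero]
    have h3 := Submodule.finrank_mono h2
    omega
  -- rank of τ ∘ δ
  have h2 : finrank (ZMod 2) (LinearMap.range (τ ∘ₗ δ)) + finrank (ZMod 2) (LinearMap.ker τ) ≤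
      finrank (ZMod 2) Z := by
    have hle : LinearMap.range (τ ∘ₗ δ) ≤ LinearMap.range (τ.domRestrict Z) := by
      rintro _ ⟨c, rfl⟩
      have hc : δ c ∈ Z := by
        rw [hZ, LinearMap.mem_ker]
        change ∑ d, (c (M.φ d) + c d) = 0
        rw [Finset.sum_add_distrib, Equiv.sum_comp M.φ c]
        exact z2 _
      exact ⟨⟨δ c, hc⟩, rfl⟩
    have h3 := Submodule.finrank_mono hle
    have h4 := LinearMap.finrank_range_add_finrank_ker (τ.domRestrict Z)
    have h5 : finrank (ZMod 2) (LinearMap.ker τ) ≤
        finrank (ZMod 2) (LinearMap.ker (τ.domRestrict Z)) := by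
      refine LinearMap.finrank_le_finrank_of_injective
        (f := (Submodule.inclusion hker).codRestrict (LinearMap.ker (τ.domRestrict Z)) ?_) ?_
      · intro x
        rw [LinearMap.mem_ker]
        exact x.2
      · intro x y hxy
        have := congrArg (fun z => (z.1.1 : D → ZMod 2)) hxy
        exact Subtype.ext this
    omega
  have h3 : finrank (ZMod 2) Z + 1 = Fintype.card D := finrank_ker_sm (D := D)
  have h4 := LinearMap.finrank_range_add_finrank_ker (τ ∘ₗ δ)
  rw [Module.finrank_fintype_fun_eq_card] at h4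
  -- K ≤ S ⊔ P
  have h5 : LinearMap.ker (τ ∘ₗ δ) ≤
      cst M.vSet ⊔ cst (Equiv.Perm.SameCycle.setoid M.φ) := by
    intro k hk
    have hk' : ∀ d, k (M.φ (M.ι d)) + k (M.ι d) = k (M.φ d) + k d := by
      intro d
      rw [LinearMap.mem_ker] at hk
      exact z2_eq (congrFun hk d)
    obtain ⟨h, hh1, hh2⟩ := hM k hk'
    have hS : h ∈ cst M.vSet := by
      refine mem_cst fun a b hab => ?_
      have := hab (fun d => h d = h b) (fun d => by rw [hh1])
      exact this.2 rfl
    have hP : k + h ∈ cst (Equiv.Perm.SameCycle.setoid M.φ) := by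
      refine mem_cst fun a b hab => ?_
      exact inv_sameCycle (φ := M.φ) (fun d => hh2 d) hab
    have : k = h + (k + h) := by
      ext d
      simp only [Pi.add_apply]
      calc k d = k d + (h d + h d) := by rw [z2, add_zero]
        _ = h d + (k d + h d) := by ring
    rw [this]
    exact Submodule.add_mem_sup hS hP
  have h6 := Submodule.finrank_mono h5
  have h7 := Submodule.finrank_sup_add_finrank_inf_eq (cst M.vSet)
    (cst (Equiv.Perm.SameCycle.setoid M.φ))
  have h8 : 1 ≤ finrank (ZMod 2)
      ↥(cst M.vSet ⊓ cst (Equiv.Perm.SameCycle.setoid M.φ)) := by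
    rw [Nat.one_le_iff_ne_zero, Ne, Submodule.finrank_eq_zero]
    intro hbot
    have hmem : (fun _ : D => (1 : ZMod 2)) ∈
        cst M.vSet ⊓ cst (Equiv.Perm.SameCycle.setoid M.φ) :=
      ⟨mem_cst fun _ _ _ => rfl, mem_cst fun _ _ _ => rfl⟩
    rw [hbot, Submodule.mem_bot] at hmem
    obtain ⟨d₀⟩ := hne
    exact one_ne_zero (congrFun hmem d₀)
  rw [finrank_cst, finrank_cst] at h7
  change Fintype.card D + 4 ≤ 2 * (Nat.card (Quotient M.vSet) +
    Nat.card (Quotient (Equiv.Perm.SameCycle.setoid M.φ)))
  omega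

end MSG.H16
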