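import Pool.Agent.Lib.MP_acafa7_al.MS.Iface1

/-! Module Proper (helper16): properness of geometric actions, elements of infinite order act
freely. -/

namespace MSG.H16

variable {V Γ : Type} [Group Γ] [MulAction Γ V] {X : Cx V}

theorem finite_smul_eq (hG : X.IsGeom Γ) (x z : V) : {g : Γ | g • x = z}.Finite := by
  by_cases h : ∃ g0 : Γ, g0 • x = z
  · obtain ⟨g0, h0⟩ := h
    refine ((hG.stab x).image (fun k => g0 * k)).subset ?_
    intro g hg
    have hg' : g • x = z := hg
    refine ⟨g0⁻¹ * g, ?_, by simp⟩
    change (g0⁻¹ * g) • x = x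
    rw [mul_smul, hg', ← h0, inv_smul_smul]
  · refine Set.finite_empty.subset ?_
    intro g hg
    exact (h ⟨g, hg⟩).elim

theorem finite_nr (hG : X.IsGeom Γ) (x y : V) : {g : Γ | Nr X.G (g • x) y}.Finite := by
  have h1 : {g : Γ | Nr X.G (g • x) y} ⊆
      ⋃ z ∈ insert y {z | X.G.Adj y z}, {g : Γ | g • x = z} := by
    intro g hg
    rcases hg with hg | hg
    · exact Set.mem_biUnion (Set.mem_insert y _) hg
    · exact Set.mem_biUnion (x := g • x) (Set.mem_insert_of_mem y hg.symm) rfl
  exact (((hG.locfin y).insert y).biUnion fun z _ => finite_smul_eq hG x z).subset h1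

theorem proper : ProperStatement := by
  intro V X Γ _ _ hG
  refine ⟨?_, ?_⟩
  · intro S S' hS hS'
    refine (hS.biUnion fun x _ => hS'.biUnion fun y _ => finite_nr hG x y).subset ?_
    rintro g ⟨x, hx, y, hy, h⟩
    exact Set.mem_biUnion hx (Set.mem_biUnion hy h)
  · intro g hg
    have hz : ∀ (n : ℤ) (x : V), ((MulAction.toPerm g : Equiv.Perm V) ^ n) x = g ^ n • x := by
      intro n x
      have h := map_zpow (MulAction.toPermHom Γ V) g n
      have h2 := congrArg (fun e : Equiv.Perm V => e x) h
      exact h2.symm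
    refine ⟨fun x y => hG.adj g x y, fun x y => hG.len g x y, ?_⟩
    intro x n hn
    rw [hz] at hn
    by_contra hn0
    have hk : ∀ k : ℤ, g ^ (n * k) • x = x := by
      intro k
      have h1 : g ^ n ∈ MulAction.stabilizer Γ x := hn
      have h2 := Subgroup.zpow_mem _ h1 k
      rw [← zpow_mul] at h2
      exact h2
    have hinj : Function.Injective (fun k : ℤ => g ^ (n * k)) := by
      intro k l hkl
      have h1 : g ^ (n * k - n * l) = 1 := by
        rw [zpow_sub]
        have h2 : g ^ (n * k) = g ^ (n * l) := hkl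
        rw [h2, mul_inv_cancel]
      have h2 := hg _ h1
      have h3 : n * (k - l) = 0 := by rw [mul_sub]; exact h2
      rcases mul_eq_zero.mp h3 with h4 | h4
      · exact absurd h4 hn0
      · omega
    exact Set.infinite_of_injective_forall_mem hinj (s := {g : Γ | g • x = x}) hk (hG.stab x)

end MSG.H16
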