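import Pool.Agent.Lib.MP_acafa7_al.MS.Iface1

/-! Module Sc (helper16): simple connectivity in terms of `Hom`. -/

namespace MSG.H16

variable {V : Type} {G : SimpleGraph V} {Y : Set V} {ω : V → V → V → ZMod 2}

theorem hom_trans {l l' l'' : List V} {e e' : ZMod 2} (h : Hom G Y ω l l' e)
    (h' : Hom G Y ω l' l'' e') : Hom G Y ω l l'' (e + e') := by
  induction h with
  | refl l => rw [zero_add]; exact h'
  | step hs _ ih =>
    rw [add_assoc]
    exact Hom.step hs (ih h')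

theorem hom_of_stp {l l' : List V} {e : ZMod 2} (h : Stp G Y ω l l' e) :
    ∃ e', Hom G Y ω l l' e' := ⟨_, Hom.step h (Hom.refl l')⟩

theorem hom_of_eqv {l l' : List V} (h : Relation.EqvGen (Move G) l l') :
    (∃ e, Hom G Set.univ ω l l' e) ∧ (∃ e, Hom G Set.univ ω l' l e) := by
  induction h with
  | rel l l' h =>
    cases h with
    | back u v x y hxy =>
      exact ⟨hom_of_stp (Stp.ins u v x y hxy (Set.mem_univ _)),
        hom_of_stp (Stp.del u v x y hxy)⟩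
    | tri u v x y z h1 h2 h3 =>
      exact ⟨hom_of_stp (Stp.exp u v x y z h1 h2 h3 (Set.mem_univ _)),
        hom_of_stp (Stp.con u v x y z h1 h2 h3)⟩
  | refl l => exact ⟨⟨0, Hom.refl l⟩, ⟨0, Hom.refl l⟩⟩
  | symm l l' _ ih => exact ⟨ih.2, ih.1⟩
  | trans l l' l'' _ _ ih1 ih2 =>
    obtain ⟨⟨a, ha⟩, ⟨b, hb⟩⟩ := ih1
    obtain ⟨⟨c, hc⟩, ⟨d, hd⟩⟩ := ih2
    exact ⟨⟨_, hom_trans ha hc⟩, ⟨_, hom_trans hd hb⟩⟩

theorem sc : ScStatement := by
  intro V G hG x l ω hl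
  exact (hom_of_eqv (hG x l hl)).1

end MSG.H16
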